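import Pool.Agent.RP97.Sparse

/-!
From regular graphs with a proper edge-colouring to systems of involutions and back.
-/

namespace RP97

open Finset

variable {V : Type*} {k : ℕ}

section Build

variable (G : SimpleGraph V) (c : Sym2 V → Fin k)

lemma exists_nb [Fintype V] [DecidableRel G.Adj] (hreg : G.IsRegularOfDegree k)
    (hc : ∀ u v w, G.Adj u v → G.Adj u w → c s(u, v) = c s(u, w) → v = w) (v : V) (d : Fin k) :
    ∃ w, G.Adj v w ∧ c s(v, w) = d := by
  classical
  have hinj : Set.InjOn (fun w => c s(v, w)) (G.neighborFinset v : Set V) := by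
    intro a ha b hb h
    exact hc v a b (by simpa using ha) (by simpa using hb) h
  have himg : (G.neighborFinset v).image (fun w => c s(v, w)) = univ := by
    apply Finset.eq_univ_of_card
    rw [Finset.card_image_of_injOn hinj, Fintype.card_fin, SimpleGraph.card_neighborFinset_eq_degree]
    exact hreg v
  have hd : d ∈ (G.neighborFinset v).image (fun w => c s(v, w)) := by rw [himg]; simp
  rw [mem_image] at hd
  obtain ⟨w, hw, rfl⟩ := hd
  exact ⟨w, by simpa using hw, rfl⟩

/-- The system of involutions of an edge-coloured regular graph. -/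
noncomputable def sysOf [Fintype V] [DecidableRel G.Adj] (hreg : G.IsRegularOfDegree k)
    (hc : ∀ u v w, G.Adj u v → G.Adj u w → c s(u, v) = c s(u, w) → v = w) : Sys V k where
  nb d v := (exists_nb G c hreg hc v d).choose
  invol d v := by
    set w := (exists_nb G c hreg hc v d).choose with hw
    obtain ⟨h1, h2⟩ := (exists_nb G c hreg hc v d).choose_spec
    rw [← hw] at h1 h2
    obtain ⟨h3, h4⟩ := (exists_nb G c hreg hc w d).choose_spec
    apply hc w _ _ h3 h1.symm
    rw [h4, Sym2.eq_swap, h2]
  ne d v := by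
    obtain ⟨h1, h2⟩ := (exists_nb G c hreg hc v d).choose_spec
    exact h1.ne'
  inj v d e h := by
    obtain ⟨h1, h2⟩ := (exists_nb G c hreg hc v d).choose_spec
    obtain ⟨h3, h4⟩ := (exists_nb G c hreg hc v e).choose_spec
    rw [← h2, ← h4, h]

variable [Fintype V] [DecidableRel G.Adj] (hreg : G.IsRegularOfDegree k)
    (hc : ∀ u v w, G.Adj u v → G.Adj u w → c s(u, v) = c s(u, w) → v = w)

lemma nb_adj (d : Fin k) (v : V) : G.Adj v ((sysOf G c hreg hc).nb d v) :=
  (exists_nb G c hreg hc v d).choose_spec.1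

lemma nb_col (d : Fin k) (v : V) : c s(v, (sysOf G c hreg hc).nb d v) = d :=
  (exists_nb G c hreg hc v d).choose_spec.2

lemma nb_eq (d : Fin k) (v w : V) (h : G.Adj v w) (hd : c s(v, w) = d) :
    (sysOf G c hreg hc).nb d v = w := by
  apply hc v _ _ (nb_adj G c hreg hc d v) h
  rw [nb_col G c hreg hc, hd]

/-- The walk following a list of colours (last entry first), written backwards. -/
noncomputable def wk : ∀ (l : List (Fin k)) (x : V), G.Walk ((sysOf G c hreg hc).ep l x) x
  | [], _ => SimpleGraph.Walk.nil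
  | d :: l, x => SimpleGraph.Walk.cons (nb_adj G c hreg hc d ((sysOf G c hreg hc).ep l x)).symm
      (wk l x)

lemma wk_length (l : List (Fin k)) (x : V) : (wk G c hreg hc l x).length = l.length := by
  induction l with
  | nil => rfl
  | cons d l ih =>
    show (SimpleGraph.Walk.cons _ _).length = _
    rw [SimpleGraph.Walk.length_cons, ih]; rfl

lemma wk_edges (l : List (Fin k)) (x : V) : (wk G c hreg hc l x).edges.map c = l := by
  induction l with
  | nil => rfl
  | cons d l ih =>
    show (SimpleGraph.Walk.cons _ _).edges.map c = _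
    rw [SimpleGraph.Walk.edges_cons, List.map_cons, ih, Sym2.eq_swap, ep_cons,
      nb_col G c hreg hc]

lemma wk_support (l : List (Fin k)) (x : V) :
    (wk G c hreg hc l x).support = (sysOf G c hreg hc).verts l x := by
  induction l with
  | nil => rfl
  | cons d l ih =>
    show (SimpleGraph.Walk.cons _ _).support = _
    rw [SimpleGraph.Walk.support_cons, ih]; rfl

omit [DecidableRel G.Adj] in
lemma walks_finite (r : ℕ) (u v : V) :
    {p : G.Walk u v | p.length = r ∧ (p.edges.map c).Nodup}.Finite := by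
  classical
  refine Set.Finite.subset (Finset.finite_toSet (G.finsetWalkLength r u v)) ?_
  intro p hp
  rw [SimpleGraph.coe_finsetWalkLength_eq]
  exact hp.1

lemma lists_le_walks [DecidableEq V] (r : ℕ) (y z : V) :
    ((nd (∅ : Finset (Fin k)) r).filter (fun p => (sysOf G c hreg hc).ep p y = z)).card
      ≤ {p : G.Walk z y | p.length = r ∧ (p.edges.map c).Nodup}.ncard := by
  classical
  rw [Set.ncard_eq_toFinset_card _ (walks_finite G c r z y)]
  refine (Finset.card_le_card ?_).trans
    (Finset.card_image_le (s := (walks_finite G c r z y).toFinset)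
      (f := fun p => p.edges.map c))
  intro l hl
  rw [mem_filter, mem_nd] at hl
  obtain ⟨⟨h1, h2, -⟩, rfl⟩ := hl
  rw [mem_image]
  refine ⟨wk G c hreg hc l y, ?_, wk_edges G c hreg hc l y⟩
  rw [Set.Finite.mem_toFinset]
  exact ⟨by rw [wk_length, h1], by rw [wk_edges]; exact h2⟩

lemma closed_empty [DecidableEq V] (ℓ : ℕ)
    (hs : ∀ (u : V) (p : G.Walk u u), p.length = ℓ → ¬ (p.edges.map c).Nodup) :
    (sysOf G c hreg hc).closed ℓ = ∅ := by
  rw [Finset.eq_empty_iff_forall_notMem]
  rintro ⟨x, l⟩ hp
  rw [mem_closed] at hp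
  obtain ⟨⟨h1, h2⟩, h3⟩ := hp
  simp only at h1 h2 h3
  apply hs x ((wk G c hreg hc l x).copy h3 rfl)
  · rw [SimpleGraph.Walk.length_copy, wk_length, h1]
  · rw [SimpleGraph.Walk.edges_copy, wk_edges]; exact h2

lemma exists_walk {K : ℕ} {x : V} {l : List (Fin k)} (hl : l ∈ nd (∅ : Finset (Fin k)) K)
    (hv : ((sysOf G c hreg hc).verts l x).Nodup) :
    ∃ (u v : V) (p : G.Walk u v), p.IsPath ∧ p.length = K ∧ (p.edges.map c).Nodup := by
  rw [mem_nd] at hl
  refine ⟨_, _, wk G c hreg hc l x, ?_, ?_, ?_⟩
  · rw [SimpleGraph.Walk.isPath_def, wk_support]; exact hv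
  · rw [wk_length, hl.1]
  · rw [wk_edges]; exact hl.2.1

end Build

end RP97
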