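import Mathlib

/-!
Rainbow walks in a `k`-regular graph with a proper `k`-edge-colouring, encoded by `k` fixed point
free involutions.  Counting of lists of distinct colours.
-/

namespace RP97

open Finset

/-- A `k`-regular graph with a proper `k`-edge-colouring, seen as a family of involutions:
`nb c v` is the neighbour of `v` along the edge of colour `c`. -/
structure Sys (V : Type*) (k : ℕ) where
  nb : Fin k → V → V
  invol : ∀ c v, nb c (nb c v) = v
  ne : ∀ c v, nb c v ≠ v
  inj : ∀ v c d, nb c v = nb d v → c = d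

variable {V : Type*} {k : ℕ} (S : Sys V k)

/-- End vertex of the walk from `x` following the colours of the list, last entry first. -/
def Sys.ep : List (Fin k) → V → V
  | [], x => x
  | c :: l, x => S.nb c (Sys.ep l x)

@[simp] lemma ep_nil (x : V) : S.ep [] x = x := rfl
@[simp] lemma ep_cons (c : Fin k) (l : List (Fin k)) (x : V) :
    S.ep (c :: l) x = S.nb c (S.ep l x) := rfl

lemma ep_append (l₂ l₁ : List (Fin k)) (x : V) :
    S.ep (l₂ ++ l₁) x = S.ep l₂ (S.ep l₁ x) := by
  induction l₂ with
  | nil => rfl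
  | cons c l ih => simp [ih]

lemma nb_injective (c : Fin k) : Function.Injective (S.nb c) := by
  intro x y h
  have := congrArg (S.nb c) h
  simpa [S.invol] using this

lemma ep_injective (l : List (Fin k)) : Function.Injective (S.ep l) := by
  induction l with
  | nil => exact fun x y h => h
  | cons c l ih =>
    intro x y h
    exact ih (nb_injective S c h)

/-- Vertices of the walk, last one first. -/
def Sys.verts : List (Fin k) → V → List V
  | [], x => [x]
  | c :: l, x => S.nb c (S.ep l x) :: Sys.verts l x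

lemma verts_eq (l : List (Fin k)) (x : V) :
    S.verts l x = l.tails.map (fun m => S.ep m x) := by
  induction l with
  | nil => simp [Sys.verts]
  | cons c l ih => simp [Sys.verts, ih]

lemma not_nodup_verts {l : List (Fin k)} {x : V} (h : ¬ (S.verts l x).Nodup) :
    ∃ a ℓ, 1 ≤ ℓ ∧ a + ℓ ≤ l.length ∧
      S.ep ((l.drop a).take ℓ) (S.ep (l.drop (a + ℓ)) x) = S.ep (l.drop (a + ℓ)) x := by
  rw [verts_eq, List.nodup_iff_getElem?_ne_getElem?] at h
  push Not at h
  obtain ⟨i, j, hij, hj, heq⟩ := h
  simp only [List.length_map, List.length_tails] at hj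
  refine ⟨i, j - i, by omega, by omega, ?_⟩
  have hi' : i < l.length + 1 := by omega
  have e1 : (l.tails.map (fun m => S.ep m x))[i]? = some (S.ep (l.drop i) x) := by
    rw [List.getElem?_map, List.getElem?_eq_getElem (by simpa using hi')]
    simp
  have e2 : (l.tails.map (fun m => S.ep m x))[j]? = some (S.ep (l.drop j) x) := by
    rw [List.getElem?_map, List.getElem?_eq_getElem (by simpa using hj)]
    simp
  rw [e1, e2] at heq
  have heq' : S.ep (l.drop i) x = S.ep (l.drop j) x := by simpa using heq
  have e3 : i + (j - i) = j := by omega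
  rw [e3]
  have e4 : l.drop i = (l.drop i).take (j - i) ++ l.drop j := by
    have := List.take_append_drop (j - i) (l.drop i)
    rw [List.drop_drop, e3] at this
    exact this.symm
  rw [← ep_append, ← e4]
  exact heq'

/-- Lists of distinct colours of length `t` avoiding `U`. -/
def nd (U : Finset (Fin k)) : ℕ → Finset (List (Fin k))
  | 0 => {[]}
  | t + 1 => ((univ ×ˢ nd U t).filter (fun p => p.1 ∉ U ∧ p.1 ∉ p.2)).image
      (fun p => p.1 :: p.2)

lemma mem_nd {U : Finset (Fin k)} {t : ℕ} {l : List (Fin k)} :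
    l ∈ nd U t ↔ l.length = t ∧ l.Nodup ∧ ∀ c ∈ l, c ∉ U := by
  induction t generalizing l with
  | zero =>
    simp only [nd, mem_singleton, List.length_eq_zero_iff]
    constructor
    · rintro rfl; simp
    · rintro ⟨rfl, -⟩; rfl
  | succ t ih =>
    simp only [nd, mem_image, mem_filter, mem_product, mem_univ, true_and, Prod.exists]
    constructor
    · rintro ⟨c, l', ⟨hl', hc, hcl⟩, rfl⟩
      obtain ⟨h1, h2, h3⟩ := ih.1 hl'
      refine ⟨by simp [h1], by simp [h2, hcl], ?_⟩
      intro d hd
      rcases List.mem_cons.1 hd with rfl | hd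
      · exact hc
      · exact h3 d hd
    · rintro ⟨h1, h2, h3⟩
      match l, h1, h2, h3 with
      | c :: l', h1, h2, h3 =>
        refine ⟨c, l', ⟨ih.2 ⟨by simpa using h1, (List.nodup_cons.1 h2).2, ?_⟩, ?_, ?_⟩, rfl⟩
        · intro d hd; exact h3 d (List.mem_cons_of_mem _ hd)
        · exact h3 c (by simp)
        · exact (List.nodup_cons.1 h2).1

lemma card_new {U : Finset (Fin k)} {t : ℕ} {l : List (Fin k)} (hl : l ∈ nd U t) :
    (univ.filter (fun c : Fin k => c ∉ U ∧ c ∉ l)).card = k - U.card - t := by
  obtain ⟨h1, h2, h3⟩ := mem_nd.1 hl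
  have e : (univ.filter (fun c : Fin k => c ∉ U ∧ c ∉ l)) = (U ∪ l.toFinset)ᶜ := by
    ext c; simp
  rw [e, card_compl, Fintype.card_fin, card_union_of_disjoint, List.toFinset_card_of_nodup h2, h1]
  · omega
  · rw [Finset.disjoint_left]
    intro c hc hc'
    exact h3 c (by simpa using hc') hc

lemma card_nd (U : Finset (Fin k)) (t : ℕ) :
    (nd U t).card = (k - U.card).descFactorial t := by
  induction t with
  | zero => simp [nd]
  | succ t ih =>
    rw [nd, card_image_of_injective, card_filter, Finset.sum_product_right]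
    · have : ∀ l ∈ nd U t, (∑ c : Fin k, if c ∉ U ∧ c ∉ l then 1 else 0) = k - U.card - t := by
        intro l hl
        rw [← card_filter]
        exact card_new hl
      rw [Finset.sum_congr rfl this, Finset.sum_const, ih, Nat.descFactorial_succ]
      simp [mul_comm]
    · intro p q h
      simp only [List.cons.injEq] at h
      exact Prod.ext h.1 h.2

/-- Number of extensions of lists of distinct colours. -/
lemma card_ext (P : List (Fin k) → Prop) [DecidablePred P] (t j : ℕ) :
    ((nd (∅ : Finset (Fin k)) (t + j)).filter (fun l => P (l.drop j))).card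
      = ((nd (∅ : Finset (Fin k)) t).filter P).card * (k - t).descFactorial j := by
  induction j with
  | zero => simp
  | succ j ih =>
    have e : (nd (∅ : Finset (Fin k)) (t + (j + 1))).filter (fun l => P (l.drop (j + 1)))
        = ((univ ×ˢ (nd (∅ : Finset (Fin k)) (t + j)).filter (fun l => P (l.drop j))).filter
          (fun p : Fin k × List (Fin k) => p.1 ∉ p.2)).image (fun p => p.1 :: p.2) := by
      ext l
      simp only [mem_filter, mem_image, mem_product, mem_univ, true_and, Prod.exists]
      constructor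
      · rintro ⟨hl, hP⟩
        rw [show t + (j + 1) = (t + j) + 1 by ring] at hl
        simp only [nd, mem_image, mem_filter, mem_product, mem_univ, true_and, Prod.exists] at hl
        obtain ⟨c, l', ⟨hl', -, hc⟩, rfl⟩ := hl
        exact ⟨c, l', ⟨⟨hl', by simpa using hP⟩, hc⟩, rfl⟩
      · rintro ⟨c, l', ⟨⟨hl', hP⟩, hc⟩, rfl⟩
        refine ⟨?_, by simpa using hP⟩
        rw [show t + (j + 1) = (t + j) + 1 by ring]
        simp only [nd, mem_image, mem_filter, mem_product, mem_univ, true_and, Prod.exists]
        exact ⟨c, l', ⟨hl', by simp, hc⟩, rfl⟩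
    rw [e, card_image_of_injective, card_filter, Finset.sum_product_right]
    · have : ∀ l ∈ (nd (∅ : Finset (Fin k)) (t + j)).filter (fun l => P (l.drop j)),
          (∑ c : Fin k, if c ∉ l then 1 else 0) = k - t - j := by
        intro l hl
        rw [← card_filter]
        have := card_new (mem_filter.1 hl).1
        simp only [notMem_empty, not_false_eq_true, true_and, card_empty, tsub_zero] at this
        rw [this]; omega
      rw [Finset.sum_congr rfl this, Finset.sum_const, ih, Nat.descFactorial_succ]
      simp only [smul_eq_mul]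
      ring
    · intro p q h
      simp only [List.cons.injEq] at h
      exact Prod.ext h.1 h.2

variable [Fintype V] [DecidableEq V]

/-- Closed rainbow walks of length `ℓ`. -/
def Sys.closed (ℓ : ℕ) : Finset (V × List (Fin k)) :=
  (univ ×ˢ nd (∅ : Finset (Fin k)) ℓ).filter (fun p => S.ep p.2 p.1 = p.1)

lemma mem_closed {ℓ : ℕ} {p : V × List (Fin k)} :
    p ∈ S.closed ℓ ↔ (p.2.length = ℓ ∧ p.2.Nodup) ∧ S.ep p.2 p.1 = p.1 := by
  simp [Sys.closed, mem_nd]

/-- Rainbow walks of length `K` whose part after `a` last and before `ℓ` further steps is closed. -/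
lemma card_part_le (K a ℓ : ℕ) (haℓ : a + ℓ ≤ K) :
    ((univ ×ˢ nd (∅ : Finset (Fin k)) K).filter (fun p : V × List (Fin k) =>
      S.ep ((p.2.drop a).take ℓ) (S.ep (p.2.drop (a + ℓ)) p.1)
        = S.ep (p.2.drop (a + ℓ)) p.1)).card
      ≤ (S.closed ℓ).card * (k - ℓ).descFactorial (K - ℓ) := by
  set T := (S.closed ℓ).sigma (fun p => nd p.2.toFinset (K - ℓ)) with hT
  have hTc : T.card = (S.closed ℓ).card * (k - ℓ).descFactorial (K - ℓ) := by
    rw [hT, card_sigma]
    rw [Finset.sum_congr rfl (g := fun _ => (k - ℓ).descFactorial (K - ℓ))]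
    · simp
    · intro p hp
      rw [mem_closed] at hp
      rw [card_nd, List.toFinset_card_of_nodup hp.1.2, hp.1.1]
  rw [← hTc]
  let Φ : V × List (Fin k) → (Σ _ : V × List (Fin k), List (Fin k)) := fun p =>
    ⟨(S.ep (p.2.drop (a + ℓ)) p.1, (p.2.drop a).take ℓ), p.2.take a ++ p.2.drop (a + ℓ)⟩
  apply Finset.card_le_card_of_injOn Φ
  · rintro ⟨x, l⟩ hp
    simp only [coe_filter, mem_product, mem_univ, true_and, Set.mem_setOf_eq] at hp
    obtain ⟨hl, hcl⟩ := hp
    obtain ⟨h1, h2, -⟩ := mem_nd.1 hl
    have hsplit : l = l.take a ++ ((l.drop a).take ℓ ++ l.drop (a + ℓ)) := by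
      have e1 := List.take_append_drop ℓ (l.drop a)
      rw [List.drop_drop] at e1
      rw [e1, List.take_append_drop]
    have hnd := h2
    rw [hsplit] at hnd
    have hnd2 := (List.nodup_append.1 hnd)
    have hnd3 := (List.nodup_append.1 hnd2.2.1)
    simp only [hT, coe_sigma, Set.mem_sigma_iff, mem_coe, Φ, mem_closed, mem_nd]
    refine ⟨⟨⟨?_, hnd3.1⟩, hcl⟩, ?_, ?_, ?_⟩
    · rw [List.length_take, List.length_drop]; omega
    · rw [List.length_append, List.length_take, List.length_drop]; omega
    · rw [List.nodup_append]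
      refine ⟨hnd2.1, hnd3.2.1, ?_⟩
      intro c hc d hd
      exact hnd2.2.2 c hc d (List.mem_append_right _ hd)
    · intro c hc hc'
      simp only [List.mem_toFinset] at hc'
      rcases List.mem_append.1 hc with hc | hc
      · exact hnd2.2.2 c hc c (List.mem_append_left _ hc') rfl
      · exact hnd3.2.2 c hc' c hc rfl
  · rintro ⟨x, l⟩ hp ⟨x', l'⟩ hp' heq
    simp only [coe_filter, mem_product, mem_univ, true_and, Set.mem_setOf_eq] at hp hp'
    obtain ⟨h1, -, -⟩ := mem_nd.1 hp.1
    obtain ⟨h1', -, -⟩ := mem_nd.1 hp'.1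
    simp only [Φ, Sigma.mk.injEq, Prod.mk.injEq, heq_eq_eq] at heq
    obtain ⟨⟨e1, e2⟩, e3⟩ := heq
    have hlen : (l.take a).length = (l'.take a).length := by
      rw [List.length_take, List.length_take]; omega
    have e4 := List.append_inj e3 hlen
    have e5 : l = l' := by
      have hs : ∀ m : List (Fin k), m = m.take a ++ ((m.drop a).take ℓ ++ m.drop (a + ℓ)) := by
        intro m
        have e1 := List.take_append_drop ℓ (m.drop a)
        rw [List.drop_drop] at e1
        rw [e1, List.take_append_drop]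
      rw [hs l, hs l', e4.1, e4.2, e2]
    subst e5
    have := ep_injective S _ e1
    rw [this]

/-- If there is no rainbow path of length `K`, closed rainbow walks are numerous. -/
lemma main_count (K : ℕ)
    (hno : ∀ x : V, ∀ l ∈ nd (∅ : Finset (Fin k)) K, ¬ (S.verts l x).Nodup) :
    Fintype.card V * k.descFactorial K ≤
      ∑ ℓ ∈ Icc 1 K, (K - ℓ + 1) * ((S.closed ℓ).card * (k - ℓ).descFactorial (K - ℓ)) := by
  have h0 : (univ ×ˢ nd (∅ : Finset (Fin k)) K : Finset (V × List (Fin k))).card
      = Fintype.card V * k.descFactorial K := by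
    rw [card_product, card_nd]; simp
  rw [← h0]
  have hcov : (univ ×ˢ nd (∅ : Finset (Fin k)) K : Finset (V × List (Fin k))) ⊆
      (Icc 1 K).biUnion (fun ℓ => (range (K - ℓ + 1)).biUnion (fun a =>
        (univ ×ˢ nd (∅ : Finset (Fin k)) K).filter (fun p : V × List (Fin k) =>
      S.ep ((p.2.drop a).take ℓ) (S.ep (p.2.drop (a + ℓ)) p.1)
        = S.ep (p.2.drop (a + ℓ)) p.1))) := by
    rintro ⟨x, l⟩ hp
    have hl : l ∈ nd (∅ : Finset (Fin k)) K := by simpa using hp
    obtain ⟨h1, -, -⟩ := mem_nd.1 hl
    obtain ⟨a, ℓ, hℓ, haℓ, he⟩ := not_nodup_verts S (hno x l hl)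
    rw [h1] at haℓ
    simp only [mem_biUnion, mem_Icc, mem_range, mem_filter]
    exact ⟨ℓ, ⟨hℓ, by omega⟩, a, by omega, hp, he⟩
  refine (card_le_card hcov).trans ?_
  refine card_biUnion_le.trans ?_
  apply Finset.sum_le_sum
  intro ℓ hℓ
  rw [mem_Icc] at hℓ
  refine card_biUnion_le.trans ?_
  refine (Finset.sum_le_card_nsmul _ _ ((S.closed ℓ).card * (k - ℓ).descFactorial (K - ℓ))
    ?_).trans ?_
  · intro a ha
    rw [mem_range] at ha
    exact card_part_le S K a ℓ (by omega)
  · simp

/-- Lists of distinct colours with prescribed end, when the last `r` steps are determined up to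
`T` possibilities. -/
lemma card_end_le {r T : ℕ}
    (hT : ∀ y z : V, ((nd (∅ : Finset (Fin k)) r).filter (fun p => S.ep p y = z)).card ≤ T)
    (U : Finset (Fin k)) (x z : V) (t : ℕ) (ht : r ≤ t) :
    ((nd U t).filter (fun l => S.ep l x = z)).card ≤ T * (k - U.card).descFactorial (t - r) := by
  rw [← card_nd U (t - r)]
  set A := (nd U t).filter (fun l => S.ep l x = z)
  have := Finset.card_le_mul_card_image (s := A) (f := fun l => l.drop r) T (by
    intro m hm
    rw [mem_image] at hm
    obtain ⟨l, hl, rfl⟩ := hm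
    refine le_trans ?_ (hT (S.ep (l.drop r) x) z)
    apply Finset.card_le_card_of_injOn (fun l' => l'.take r)
    · intro l' hl'
      simp only [A, coe_filter, mem_filter, Set.mem_setOf_eq] at hl'
      obtain ⟨⟨hl'1, hl'2⟩, hl'3⟩ := hl'
      obtain ⟨h1, h2, h3⟩ := mem_nd.1 hl'1
      simp only [coe_filter, Set.mem_setOf_eq]
      refine ⟨mem_nd.2 ⟨?_, ?_, by simp⟩, ?_⟩
      · rw [List.length_take]; omega
      · exact h2.sublist (List.take_sublist _ _)
      · rw [← hl'3, ← ep_append, List.take_append_drop, hl'2]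
    · intro l' hl' l'' hl'' he
      simp only [A, coe_filter, mem_filter, Set.mem_setOf_eq] at hl' hl''
      rw [← List.take_append_drop r l', ← List.take_append_drop r l'', hl'.2, hl''.2]
      simp only at he
      rw [he])
  refine this.trans (Nat.mul_le_mul_left _ (card_le_card ?_))
  intro m hm
  rw [mem_image] at hm
  obtain ⟨l, hl, rfl⟩ := hm
  simp only [A, mem_filter] at hl
  obtain ⟨h1, h2, h3⟩ := mem_nd.1 hl.1
  refine mem_nd.2 ⟨?_, ?_, ?_⟩
  · rw [List.length_drop]; omega
  · exact h2.sublist (List.drop_sublist _ _)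
  · intro c hc
    exact h3 c ((List.drop_sublist _ _).subset hc)

end RP97
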