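import Pool.Agent.RP97.Pairs

/-!
Probability bounds for two near returns of a random rainbow walk.
-/

namespace RP97

open Finset

variable {V : Type*} {k : ℕ} (S : Sys V k) [Fintype V] [DecidableEq V]

lemma desc_pred (N q : ℕ) :
    (N - 1).descFactorial q * N = N.descFactorial q * (N - q) := by
  rcases N with _ | M
  · simp
  · have h1 := Nat.succ_descFactorial_succ M q
    have h2 := Nat.descFactorial_succ (M + 1) q
    rw [h1] at h2
    rw [Nat.add_sub_cancel]
    calc M.descFactorial q * (M + 1) = (M + 1) * M.descFactorial q := by ring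
      _ = (M + 1 - q) * (M + 1).descFactorial q := h2
      _ = _ := by ring

lemma desc_split (m t : ℕ) (ht : 2 ≤ t) (h : t + m ≤ k) :
    k.descFactorial (t + m) =
      k.descFactorial m * ((k - m) * ((k - m - 1) * (k - (m + 2)).descFactorial (t - 2))) := by
  have e : k.descFactorial (t + m) = (k - m).descFactorial t * k.descFactorial m := by
    have := Nat.descFactorial_mul_descFactorial (n := k) (show m ≤ m + t by omega)
    rw [show t + m = m + t by ring, ← this]
    congr 2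
    omega
  obtain ⟨q, rfl⟩ : ∃ q, t = q + 2 := ⟨t - 2, by omega⟩
  obtain ⟨N, hN⟩ : ∃ N, k = N + m + 2 := ⟨k - m - 2, by omega⟩
  rw [e]
  have e1 : k - m = (N + 1) + 1 := by omega
  have e2 : k - m - 1 = N + 1 := by omega
  have e3 : k - (m + 2) = N := by omega
  have e4 : q + 2 - 2 = q := by omega
  rw [e2, e3, e4, e1, Nat.succ_descFactorial_succ, Nat.succ_descFactorial_succ]
  ring

lemma Pr_le_of_cnt [Nonempty V] {P : V → List (Fin k) → Prop} {u X : ℕ} {c : ℝ} (hu : u ≤ k)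
    (h1 : cnt (V := V) P u ≤ Fintype.card V * X) (h2 : (X : ℝ) ≤ c * k.descFactorial u) :
    Pr P u ≤ c := by
  unfold Pr
  have hn : (0 : ℝ) < (Fintype.card V : ℝ) := by exact_mod_cast Fintype.card_pos
  have hD : (0 : ℝ) < (k.descFactorial u : ℝ) := by
    exact_mod_cast Nat.descFactorial_pos.2 hu
  rw [div_le_iff₀ (by positivity)]
  have h1' : ((cnt (V := V) P u : ℕ) : ℝ) ≤ (Fintype.card V : ℝ) * X := by exact_mod_cast h1
  calc ((cnt (V := V) P u : ℕ) : ℝ) ≤ (Fintype.card V : ℝ) * X := h1'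
    _ ≤ (Fintype.card V : ℝ) * (c * k.descFactorial u) :=
        mul_le_mul_of_nonneg_left h2 hn.le
    _ = _ := by ring

lemma take_mem {t m : ℕ} {l : List (Fin k)} (hl : l ∈ nd (∅ : Finset (Fin k)) (t + m)) :
    l.take m ∈ nd (∅ : Finset (Fin k)) m := by
  obtain ⟨h1, h2, -⟩ := mem_nd.1 hl
  refine mem_nd.2 ⟨?_, h2.sublist (List.take_sublist _ _), by simp⟩
  rw [List.length_take]; omega

lemma card_U_ge {t m : ℕ} {l : List (Fin k)} (hl : l ∈ nd (∅ : Finset (Fin k)) (t + m))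
    (W W' : Finset (Fin k)) (hW : W ⊆ W') (hd : ∀ c ∈ W, c ∉ l.take m) :
    m + W.card ≤ (W' ∪ (l.take m).toFinset).card := by
  obtain ⟨h1, h2, -⟩ := mem_nd.1 (take_mem hl)
  have e : (W ∪ (l.take m).toFinset).card = W.card + m := by
    rw [card_union_of_disjoint, List.toFinset_card_of_nodup h2, h1]
    rw [Finset.disjoint_left]
    intro c hc hc'
    exact hd c hc (by simpa using hc')
  have := card_le_card (Finset.union_subset_union_left hW (t := (l.take m).toFinset))
  omega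

omit [Fintype V] [DecidableEq V] in
lemma ep_take {x : V} {l : List (Fin k)} {m : ℕ} {a b a' b' : Fin k}
    (h1 : S.Cl x (l.drop m) a b) (h2 : S.Cl x l a' b') :
    S.ep (l.take m) (S.nb b (S.nb a x)) = S.nb b' (S.nb a' x) := by
  rw [← h1.2.2.2, ← ep_append, List.take_append_drop, h2.2.2.2]

/-- Relations between the closing colours at two times. -/
def R1 (m : ℕ) (_ : V) (l : List (Fin k)) (a b a' b' : Fin k) : Prop :=
  m + 3 ≤ (({a, b, a', b'} : Finset (Fin k)) ∪ (l.take m).toFinset).card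

def R2 (m : ℕ) (_ : V) (l : List (Fin k)) (a b _ _ : Fin k) : Prop :=
  a ∈ l.take m ∨ b ∈ l.take m

def R3 (_ : V) (_ : List (Fin k)) (a b a' b' : Fin k) : Prop :=
  (a' = a ∧ b' = b) ∨ (a' = b ∧ b' = a)

def R4 (_ : V) (_ : List (Fin k)) (a b a' b' : Fin k) : Prop :=
  a' = a ∨ a' = b ∨ b' = a ∨ b' = b

/-- The event that closing colours at two times are related by `R`. -/
def Sys.Q (S : Sys V k) (m : ℕ) (R : V → List (Fin k) → Fin k → Fin k → Fin k → Fin k → Prop)
    (x : V) (l : List (Fin k)) : Prop :=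
  ∃ a b a' b', S.Cl x (l.drop m) a b ∧ S.Cl x l a' b' ∧ R x l a b a' b'

lemma hu2 {t m : ℕ} {x : V} {l : List (Fin k)} (hl : l ∈ nd (∅ : Finset (Fin k)) (t + m))
    {a b a' b' : Fin k} (h2 : S.Cl x l a' b') :
    m + 2 ≤ (({a, b, a', b'} : Finset (Fin k)) ∪ (l.take m).toFinset).card := by
  have := card_U_ge hl ({a', b'} : Finset (Fin k)) {a, b, a', b'} (by
    intro c hc
    simp only [mem_insert, mem_singleton] at hc ⊢
    tauto) (by
    intro c hc hc'
    have hc' := (List.take_sublist m l).subset hc'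
    simp only [mem_insert, mem_singleton] at hc
    rcases hc with rfl | rfl
    · exact h2.2.1 hc'
    · exact h2.2.2.1 hc')
  rw [card_pair h2.1] at this
  exact this

lemma cnt_R1 (hC : S.C4) (t m : ℕ) (ht : 2 ≤ t) :
    cnt (S.Q m (R1 m)) (t + m) ≤
      Fintype.card V * (k * (k * k.descFactorial m) * (k - (m + 3)).descFactorial (t - 2)) := by
  have := cnt_pair_le S hC t m (m + 3) ht (R1 m) (L1 V k m)
    (fun x l hl a b a' b' _ _ _ => by
      simp only [L1, mem_product, mem_univ, true_and]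
      exact take_mem hl)
    (fun x l hl a b a' b' _ _ h => h)
  rw [card_L1] at this
  refine this.trans (le_of_eq ?_)
  ring

lemma cnt_R2 (hC : S.C4) (t m : ℕ) (ht : 2 ≤ t) :
    cnt (S.Q m (R2 m)) (t + m) ≤
      Fintype.card V * (2 * m * k * k.descFactorial m * (k - (m + 2)).descFactorial (t - 2)) := by
  have := cnt_pair_le S hC t m (m + 2) ht (R2 m)
    ((L1 V k m).filter (fun q => q.2.1 ∈ q.2.2.2 ∨ q.2.2.1 ∈ q.2.2.2))
    (fun x l hl a b a' b' _ _ h => by
      rw [mem_filter]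
      refine ⟨?_, h⟩
      simp only [L1, mem_product, mem_univ, true_and]
      exact take_mem hl)
    (fun x l hl a b a' b' _ h2 _ => hu2 S hl h2)
  refine this.trans ?_
  refine (Nat.mul_le_mul_right _ (card_L2 (V := V) m)).trans (le_of_eq ?_)
  ring

lemma cnt_R3 (hC : S.C4) (t m : ℕ) (ht : 2 ≤ t) (hm : 1 ≤ m) :
    cnt (S.Q m R3) (t + m) ≤
      Fintype.card V * (k * (k * (2 * k.descFactorial (m - 1))) *
        (k - (m + 2)).descFactorial (t - 2)) := by
  classical
  have := cnt_pair_le S hC t m (m + 2) ht R3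
    ((L1 V k m).filter (fun q =>
      S.ep q.2.2.2 (S.nb q.2.2.1 (S.nb q.2.1 q.1)) = S.nb q.2.2.1 (S.nb q.2.1 q.1) ∨
      S.ep q.2.2.2 (S.nb q.2.2.1 (S.nb q.2.1 q.1)) = S.nb q.2.1 (S.nb q.2.2.1 q.1)))
    (fun x l hl a b a' b' h1 h2 h => by
      rw [mem_filter]
      refine ⟨?_, ?_⟩
      · simp only [L1, mem_product, mem_univ, true_and]
        exact take_mem hl
      · have he := ep_take S h1 h2
        rcases h with ⟨rfl, rfl⟩ | ⟨rfl, rfl⟩
        · exact Or.inl he
        · exact Or.inr he)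
    (fun x l hl a b a' b' _ h2 _ => hu2 S hl h2)
  refine this.trans ?_
  refine (Nat.mul_le_mul_right _ (card_L3 S m hm)).trans (le_of_eq ?_)
  ring

lemma cnt_R4 (hC : S.C4) (t m : ℕ) (ht : 2 ≤ t) (hm : 2 ≤ m) :
    cnt (S.Q m R4) (t + m) ≤
      Fintype.card V * (k * (k * (k * (4 * k.descFactorial (m - 2)))) *
        (k - (m + 2)).descFactorial (t - 2)) := by
  classical
  have := cnt_pair_le S hC t m (m + 2) ht R4 ((L1 V k m).filter S.Near)
    (fun x l hl a b a' b' h1 h2 h => by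
      rw [mem_filter]
      refine ⟨?_, ?_⟩
      · simp only [L1, mem_product, mem_univ, true_and]
        exact take_mem hl
      · have he := ep_take S h1 h2
        rcases h with rfl | rfl | rfl | rfl
        · exact ⟨b', Or.inl he⟩
        · exact ⟨b', Or.inr (Or.inl he)⟩
        · exact ⟨a', Or.inr (Or.inr (Or.inl he))⟩
        · exact ⟨a', Or.inr (Or.inr (Or.inr he))⟩)
    (fun x l hl a b a' b' _ h2 _ => hu2 S hl h2)
  refine this.trans ?_
  refine (Nat.mul_le_mul_right _ (card_L4 S hC m hm)).trans (le_of_eq ?_)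
  ring

section Real

variable [Nonempty V]

lemma Pr_R1 (hC : S.C4) (t m : ℕ) (ht : 2 ≤ t) (htm : t + m ≤ k) (hm : 4 * (m + 2) ≤ k) :
    Pr (S.Q m (R1 m)) (t + m) ≤ 4 * (k - m - t : ℝ) / k := by
  apply Pr_le_of_cnt htm (cnt_R1 S hC t m ht)
  rw [desc_split m t ht htm]
  obtain ⟨N, hN⟩ : ∃ N, k = N + m + 2 := ⟨k - m - 2, by omega⟩
  obtain ⟨q, rfl⟩ : ∃ q, t = q + 2 := ⟨t - 2, by omega⟩
  have e1 : k - m = N + 2 := by omega
  have e2 : k - m - 1 = N + 1 := by omega
  have e3 : k - (m + 2) = N := by omega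
  have e4 : q + 2 - 2 = q := by omega
  have e5 : k - (m + 3) = N - 1 := by omega
  rw [e2, e3, e4, e1, e5]
  have hp := desc_pred N q
  have hqN : q ≤ N := by omega
  have hp' : ((N - 1).descFactorial q : ℝ) * N = N.descFactorial q * ((N : ℝ) - q) := by
    have : (((N - 1).descFactorial q * N : ℕ) : ℝ) = (N.descFactorial q * (N - q) : ℕ) := by
      exact_mod_cast hp
    rw [Nat.cast_mul, Nat.cast_mul, Nat.cast_sub hqN] at this
    exact this
  have hk : (k : ℝ) = N + m + 2 := by rw [hN]; push_cast; ring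
  have hkpos : (0 : ℝ) < k := by
    have : 0 < k := by omega
    exact_mod_cast this
  have hN34 : 3 * (k : ℝ) ≤ 4 * N := by
    have : 3 * k ≤ 4 * N := by omega
    exact_mod_cast this
  have hNpos : (0 : ℝ) < N := by linarith
  push_cast
  set X := ((N - 1).descFactorial q : ℝ)
  set Y := (N.descFactorial q : ℝ)
  set D := (k.descFactorial m : ℝ)
  have hX : X = Y * (N - q) / N := by
    rw [eq_div_iff hNpos.ne', hp']
  rw [div_mul_eq_mul_div, le_div_iff₀ hkpos, hX]
  have hY : 0 ≤ Y := by positivity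
  have hD : 0 ≤ D := by positivity
  have hq0 : (0 : ℝ) ≤ N - q := by
    have : (q : ℝ) ≤ N := by exact_mod_cast hqN
    linarith
  have hgoal : (k : ℝ) * (k * D) * (Y * (N - q) / N) * k ≤
      4 * (N - q) * (D * ((N + 2) * ((N + 1) * Y))) := by
    have h3 : (k : ℝ) * k * k ≤ 4 * ((N + 2) * (N + 1) * N) := by
      have a1 : (k : ℝ) * k ≤ 4/3 * ((N : ℝ) + 2) * (4/3 * ((N : ℝ) + 1)) :=
        mul_le_mul (by linarith) (by linarith) hkpos.le (by positivity)
      have a2 : (k : ℝ) * k * k ≤ 4/3 * ((N : ℝ) + 2) * (4/3 * ((N : ℝ) + 1)) * (4/3 * N) :=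
        mul_le_mul a1 (by linarith) hkpos.le (by positivity)
      have a3 : (0 : ℝ) ≤ (N + 2) * (N + 1) * N := by positivity
      nlinarith [a2, a3]
    have h4 : (k : ℝ) * (k * D) * (Y * (N - q) / N) * k =
        (k * k * k) * (D * Y * (N - q)) / N := by ring
    rw [h4, div_le_iff₀ hNpos]
    have h5 : (0 : ℝ) ≤ D * Y * (N - q) := by positivity
    calc (k : ℝ) * k * k * (D * Y * (N - q)) ≤ 4 * ((N + 2) * (N + 1) * N) * (D * Y * (N - q)) :=
          mul_le_mul_of_nonneg_right h3 h5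
      _ = _ := by ring
  have hrew : (k : ℝ) - m - (q + 2) = N - q := by rw [hk]; ring
  rw [hrew]
  exact hgoal

lemma Pr_R2 (hC : S.C4) (t m : ℕ) (ht : 2 ≤ t) (htm : t + m ≤ k) (hm : 4 * (m + 2) ≤ k) :
    Pr (S.Q m (R2 m)) (t + m) ≤ 4 * (m : ℝ) / k := by
  apply Pr_le_of_cnt htm (cnt_R2 S hC t m ht)
  rw [desc_split m t ht htm]
  have e1 : ((k - m : ℕ) : ℝ) = (k : ℝ) - m := by rw [Nat.cast_sub (by omega)]
  have e2 : ((k - m - 1 : ℕ) : ℝ) = (k : ℝ) - m - 1 := by
    rw [Nat.cast_sub (by omega), e1]; simp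
  have hkpos : (0 : ℝ) < k := by
    have : 0 < k := by omega
    exact_mod_cast this
  have hm' : 4 * ((m : ℝ) + 2) ≤ k := by exact_mod_cast hm
  push_cast [e1, e2]
  set Y := ((k - (m + 2)).descFactorial (t - 2) : ℝ)
  set D := (k.descFactorial m : ℝ)
  have hY : 0 ≤ Y := by positivity
  have hD : 0 ≤ D := by positivity
  rw [div_mul_eq_mul_div, le_div_iff₀ hkpos]
  have h3 : (k : ℝ) * k ≤ 2 * ((k - m) * (k - m - 1)) := by
    have a1 : (k : ℝ) * k ≤ 4/3 * ((k : ℝ) - m) * (4/3 * ((k : ℝ) - m - 1)) :=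
      mul_le_mul (by linarith) (by linarith) hkpos.le (by linarith)
    have a2 : (0 : ℝ) ≤ (k - m) * (k - m - 1) := mul_nonneg (by linarith) (by linarith)
    nlinarith [a1, a2]
  have h5 : (0 : ℝ) ≤ 2 * m * (D * Y) := by positivity
  calc 2 * (m : ℝ) * k * D * Y * k = (k * k) * (2 * m * (D * Y)) := by ring
    _ ≤ 2 * ((k - m) * (k - m - 1)) * (2 * m * (D * Y)) := mul_le_mul_of_nonneg_right h3 h5
    _ = _ := by ring

lemma Pr_R3 (hC : S.C4) (t m : ℕ) (ht : 2 ≤ t) (hm1 : 1 ≤ m) (htm : t + m ≤ k)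
    (hm : 4 * (m + 2) ≤ k) :
    Pr (S.Q m R3) (t + m) ≤ 5 / k := by
  apply Pr_le_of_cnt htm (cnt_R3 S hC t m ht hm1)
  rw [desc_split m t ht htm]
  have e0 : k.descFactorial m = (k - (m - 1)) * k.descFactorial (m - 1) := by
    obtain ⟨j, rfl⟩ : ∃ j, m = j + 1 := ⟨m - 1, by omega⟩
    rw [Nat.descFactorial_succ]; simp
  rw [e0]
  have e1 : ((k - m : ℕ) : ℝ) = (k : ℝ) - m := by rw [Nat.cast_sub (by omega)]
  have e2 : ((k - m - 1 : ℕ) : ℝ) = (k : ℝ) - m - 1 := by
    rw [Nat.cast_sub (by omega), e1]; simp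
  have e3 : ((k - (m - 1) : ℕ) : ℝ) = (k : ℝ) - m + 1 := by
    rw [Nat.cast_sub (by omega), Nat.cast_sub hm1]; push_cast; ring
  have hkpos : (0 : ℝ) < k := by
    have : 0 < k := by omega
    exact_mod_cast this
  have hm' : 4 * ((m : ℝ) + 2) ≤ k := by exact_mod_cast hm
  push_cast [e1, e2, e3]
  set Y := ((k - (m + 2)).descFactorial (t - 2) : ℝ)
  set D := (k.descFactorial (m - 1) : ℝ)
  have hY : 0 ≤ Y := by positivity
  have hD : 0 ≤ D := by positivity
  rw [div_mul_eq_mul_div, le_div_iff₀ hkpos]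
  have h3 : (k : ℝ) * k * k ≤ 64/27 * ((k - m + 1) * (k - m) * (k - m - 1)) := by
    have a0 : (k : ℝ) * k ≤ 4/3 * ((k : ℝ) - m + 1) * (4/3 * ((k : ℝ) - m)) :=
      mul_le_mul (by linarith) (by linarith) hkpos.le (by linarith)
    have a1 : (k : ℝ) * k * k ≤ 4/3 * ((k : ℝ) - m + 1) * (4/3 * ((k : ℝ) - m)) *
        (4/3 * ((k : ℝ) - m - 1)) :=
      mul_le_mul a0 (by linarith) hkpos.le
        (mul_nonneg (by linarith) (by linarith))
    calc _ ≤ _ := a1
      _ = _ := by ring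
  have a2 : (0 : ℝ) ≤ (k - m + 1) * (k - m) * (k - m - 1) :=
    mul_nonneg (mul_nonneg (by linarith) (by linarith)) (by linarith)
  have h5 : (0 : ℝ) ≤ 2 * (D * Y) := by positivity
  calc (k : ℝ) * (k * (2 * D)) * Y * k = (k * k * k) * (2 * (D * Y)) := by ring
    _ ≤ 64/27 * ((k - m + 1) * (k - m) * (k - m - 1)) * (2 * (D * Y)) :=
        mul_le_mul_of_nonneg_right h3 h5
    _ ≤ _ := by
        have : 64/27 * ((k - m + 1) * (k - m) * (k - m - 1)) * (2 * (D * Y)) =
          128/27 * (((k - m + 1) * (k - m) * (k - m - 1)) * (D * Y)) := by ring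
        rw [this]
        have h6 : 5 * ((k - m + 1) * D * ((k - m) * ((k - m - 1) * Y))) =
          5 * (((k - m + 1) * (k - m) * (k - m - 1)) * (D * Y)) := by ring
        rw [h6]
        apply mul_le_mul_of_nonneg_right (by norm_num)
        positivity

lemma Pr_R4 (hC : S.C4) (t m : ℕ) (ht : 2 ≤ t) (hm2 : 2 ≤ m) (htm : t + m ≤ k)
    (hm : 4 * (m + 2) ≤ k) :
    Pr (S.Q m R4) (t + m) ≤ 13 / k := by
  apply Pr_le_of_cnt htm (cnt_R4 S hC t m ht hm2)
  rw [desc_split m t ht htm]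
  have e0 : k.descFactorial m = (k - (m - 1)) * ((k - (m - 2)) * k.descFactorial (m - 2)) := by
    obtain ⟨j, rfl⟩ : ∃ j, m = j + 2 := ⟨m - 2, by omega⟩
    rw [show j + 2 = (j + 1) + 1 by ring, Nat.descFactorial_succ, Nat.descFactorial_succ]; simp
  rw [e0]
  have e1 : ((k - m : ℕ) : ℝ) = (k : ℝ) - m := by rw [Nat.cast_sub (by omega)]
  have e2 : ((k - m - 1 : ℕ) : ℝ) = (k : ℝ) - m - 1 := by
    rw [Nat.cast_sub (by omega), e1]; simp
  have e3 : ((k - (m - 1) : ℕ) : ℝ) = (k : ℝ) - m + 1 := by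
    rw [Nat.cast_sub (by omega), Nat.cast_sub (by omega)]; push_cast; ring
  have e4 : ((k - (m - 2) : ℕ) : ℝ) = (k : ℝ) - m + 2 := by
    rw [Nat.cast_sub (by omega), Nat.cast_sub hm2]; push_cast; ring
  have hkpos : (0 : ℝ) < k := by
    have : 0 < k := by omega
    exact_mod_cast this
  have hm' : 4 * ((m : ℝ) + 2) ≤ k := by exact_mod_cast hm
  push_cast [e1, e2, e3, e4]
  set Y := ((k - (m + 2)).descFactorial (t - 2) : ℝ)
  set D := (k.descFactorial (m - 2) : ℝ)
  have hY : 0 ≤ Y := by positivity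
  have hD : 0 ≤ D := by positivity
  rw [div_mul_eq_mul_div, le_div_iff₀ hkpos]
  have h3 : (k : ℝ) * k * k * k ≤
      256/81 * ((k - m + 2) * (k - m + 1) * (k - m) * (k - m - 1)) := by
    have a00 : (k : ℝ) * k ≤ 4/3 * ((k : ℝ) - m + 2) * (4/3 * ((k : ℝ) - m + 1)) :=
      mul_le_mul (by linarith) (by linarith) hkpos.le (by linarith)
    have a0 : (k : ℝ) * k * k ≤ 4/3 * ((k : ℝ) - m + 2) * (4/3 * ((k : ℝ) - m + 1)) *
        (4/3 * ((k : ℝ) - m)) :=
      mul_le_mul a00 (by linarith) hkpos.le (mul_nonneg (by linarith) (by linarith))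
    have a1 : (k : ℝ) * k * k * k ≤ 4/3 * ((k : ℝ) - m + 2) * (4/3 * ((k : ℝ) - m + 1)) *
        (4/3 * ((k : ℝ) - m)) * (4/3 * ((k : ℝ) - m - 1)) :=
      mul_le_mul a0 (by linarith) hkpos.le
        (mul_nonneg (mul_nonneg (by linarith) (by linarith)) (by linarith))
    calc _ ≤ _ := a1
      _ = _ := by ring
  have a2 : (0 : ℝ) ≤ (k - m + 2) * (k - m + 1) * (k - m) * (k - m - 1) :=
    mul_nonneg (mul_nonneg (mul_nonneg (by linarith) (by linarith)) (by linarith)) (by linarith)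
  have h5 : (0 : ℝ) ≤ 4 * (D * Y) := by positivity
  calc (k : ℝ) * (k * (k * (4 * D))) * Y * k = (k * k * k * k) * (4 * (D * Y)) := by ring
    _ ≤ 256/81 * ((k - m + 2) * (k - m + 1) * (k - m) * (k - m - 1)) * (4 * (D * Y)) :=
        mul_le_mul_of_nonneg_right h3 h5
    _ ≤ _ := by
        have : 256/81 * ((k - m + 2) * (k - m + 1) * (k - m) * (k - m - 1)) * (4 * (D * Y)) =
          1024/81 * (((k - m + 2) * (k - m + 1) * (k - m) * (k - m - 1)) * (D * Y)) := by ring
        rw [this]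
        have h6 : 13 * ((k - m + 1) * ((k - m + 2) * D) * ((k - m) * ((k - m - 1) * Y))) =
          13 * (((k - m + 2) * (k - m + 1) * (k - m) * (k - m - 1)) * (D * Y)) := by ring
        rw [h6]
        apply mul_le_mul_of_nonneg_right (by norm_num)
        positivity

/-- Two near returns late in the walk. -/
lemma Pr_both (hC : S.C4) (t m : ℕ) (ht : 2 ≤ t) (hm1 : 1 ≤ m) (htm : t + m ≤ k)
    (hm : 4 * (m + 2) ≤ k) :
    Pr (fun x l => S.A x (l.drop m) ∧ S.A x l) (t + m) ≤ (4 * (k - t : ℝ) + 5) / k := by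
  have h1 : Pr (fun x l => S.A x (l.drop m) ∧ S.A x l) (t + m) ≤
      Pr (fun x l => S.Q m (R1 m) x l ∨ (S.Q m (R2 m) x l ∨ S.Q m R3 x l)) (t + m) := by
    apply Pr_mono
    rintro x l hl ⟨⟨a, b, h1⟩, ⟨a', b', h2⟩⟩
    by_cases hD : a ∈ l.take m ∨ b ∈ l.take m
    · exact Or.inr (Or.inl ⟨a, b, a', b', h1, h2, hD⟩)
    by_cases h3 : (a' = a ∧ b' = b) ∨ (a' = b ∧ b' = a)
    · exact Or.inr (Or.inr ⟨a, b, a', b', h1, h2, h3⟩)
    push Not at hD
    left
    refine ⟨a, b, a', b', h1, h2, ?_⟩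
    have hne := h1.1
    have hne' := h2.1
    have hta : a' ∉ l.take m := fun h => h2.2.1 ((List.take_sublist m l).subset h)
    have htb : b' ∉ l.take m := fun h => h2.2.2.1 ((List.take_sublist m l).subset h)
    have key : ∃ e, (e = a ∨ e = b) ∧ e ≠ a' ∧ e ≠ b' := by
      by_contra hcon
      push Not at hcon
      have g1 := hcon a (Or.inl rfl)
      have g2 := hcon b (Or.inr rfl)
      by_cases e1 : a = a'
      · subst e1
        have : b = b' := g2 (Ne.symm hne)
        exact h3 (Or.inl ⟨rfl, this.symm⟩)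
      · have e2 := g1 e1
        subst e2
        by_cases e3 : b = a'
        · subst e3; exact h3 (Or.inr ⟨rfl, rfl⟩)
        · exact hne (g2 e3).symm
    obtain ⟨e, he, hea, heb⟩ := key
    have hed : e ∉ l.take m := by rcases he with rfl | rfl; exacts [hD.1, hD.2]
    have := card_U_ge hl ({e, a', b'} : Finset (Fin k)) {a, b, a', b'} (by
      intro c hc
      simp only [mem_insert, mem_singleton] at hc ⊢
      rcases hc with rfl | rfl | rfl
      · tauto
      · tauto
      · tauto) (by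
      intro c hc
      simp only [mem_insert, mem_singleton] at hc
      rcases hc with rfl | rfl | rfl
      · exact hed
      · exact hta
      · exact htb)
    have hc3 : ({e, a', b'} : Finset (Fin k)).card = 3 := by
      rw [card_insert_of_notMem (by simp [hea, heb]), card_pair hne']
    rw [hc3] at this
    exact this
  have h2 := Pr_or (P := S.Q m (R1 m)) (Q := fun x l => S.Q m (R2 m) x l ∨ S.Q m R3 x l)
    (t := t + m)
  have h3 := Pr_or (P := S.Q m (R2 m)) (Q := S.Q m R3) (t := t + m)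
  have g1 := Pr_R1 S hC t m ht htm hm
  have g2 := Pr_R2 S hC t m ht htm hm
  have g3 := Pr_R3 S hC t m ht hm1 htm hm
  have hsum : 4 * (k - m - t : ℝ) / k + (4 * (m : ℝ) / k + 5 / k) = (4 * (k - t : ℝ) + 5) / k := by
    ring
  rw [← hsum]
  linarith

/-- Coincidences between the closing colours at two times. -/
def Sys.NG (S : Sys V k) (m : ℕ) (x : V) (l : List (Fin k)) : Prop :=
  S.Q m (R2 m) x l ∨ S.Q m R4 x l

lemma Pr_NG (hC : S.C4) (t m : ℕ) (ht : 2 ≤ t) (hm2 : 2 ≤ m) (htm : t + m ≤ k)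
    (hm : 4 * (m + 2) ≤ k) :
    Pr (S.NG m) (t + m) ≤ (4 * m + 13) / k := by
  have h2 := Pr_or (P := S.Q m (R2 m)) (Q := S.Q m R4) (t := t + m)
  have g2 := Pr_R2 S hC t m ht htm hm
  have g3 := Pr_R4 S hC t m ht hm2 htm hm
  have hsum : 4 * (m : ℝ) / k + 13 / k = (4 * m + 13) / k := by ring
  rw [← hsum]
  exact h2.trans (add_le_add g2 g3)

end Real

end RP97
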