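import Pool.Agent.RP97.Base

/-!
Colour systems without 4-cycles: near returns of rainbow walks and counting them.
-/

namespace RP97

open Finset

variable {V : Type*} {k : ℕ}

/-- No four-cycles: a vertex at distance two is reached in one way only. -/
def Sys.C4 (S : Sys V k) : Prop := ∀ x a b a' b', a ≠ b → a' ≠ b' →
  S.nb b (S.nb a x) = S.nb b' (S.nb a' x) → a = a' ∧ b = b'

/-- `(a, b)` closes the walk `T` from `x`: two unused colours lead from `x` to its end. -/
def Sys.Cl (S : Sys V k) (x : V) (T : List (Fin k)) (a b : Fin k) : Prop :=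
  a ≠ b ∧ a ∉ T ∧ b ∉ T ∧ S.ep T x = S.nb b (S.nb a x)

/-- The walk `T` from `x` can be closed by two further colours. -/
def Sys.A (S : Sys V k) (x : V) (T : List (Fin k)) : Prop := ∃ a b, S.Cl x T a b

variable (S : Sys V k)

lemma Cl_unique (hC : S.C4) {x : V} {T T' : List (Fin k)} {a b a' b' : Fin k}
    (h : S.Cl x T a b) (h' : S.Cl x T' a' b') (he : S.ep T x = S.ep T' x) : a = a' ∧ b = b' :=
  hC x a b a' b' h.1 h'.1 (by rw [← h.2.2.2, ← h'.2.2.2, he])

lemma two_step (x : V) (a b : Fin k) (h : S.nb b (S.nb a x) = x) : a = b := by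
  have h1 : S.nb b (S.nb a x) = S.nb a (S.nb a x) := by rw [h, S.invol]
  exact (S.inj _ _ _ h1).symm

lemma one_step (y z : V) [DecidableEq V] :
    ((nd (∅ : Finset (Fin k)) 1).filter (fun p => S.ep p y = z)).card ≤ 1 := by
  rw [Finset.card_le_one]
  intro p hp q hq
  rw [mem_filter, mem_nd] at hp hq
  obtain ⟨⟨h1, -, -⟩, h2⟩ := hp
  obtain ⟨⟨h3, -, -⟩, h4⟩ := hq
  obtain ⟨c, rfl⟩ := List.length_eq_one_iff.1 h1
  obtain ⟨d, rfl⟩ := List.length_eq_one_iff.1 h3
  simp only [ep_cons, ep_nil] at h2 h4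
  rw [S.inj y c d (h2.trans h4.symm)]

lemma two_steps (hC : S.C4) (y z : V) [DecidableEq V] :
    ((nd (∅ : Finset (Fin k)) 2).filter (fun p => S.ep p y = z)).card ≤ 1 := by
  rw [Finset.card_le_one]
  intro p hp q hq
  rw [mem_filter, mem_nd] at hp hq
  obtain ⟨⟨h1, h1', -⟩, h2⟩ := hp
  obtain ⟨⟨h3, h3', -⟩, h4⟩ := hq
  obtain ⟨b, a, rfl⟩ := List.length_eq_two.1 h1
  obtain ⟨b', a', rfl⟩ := List.length_eq_two.1 h3
  simp only [ep_cons, ep_nil] at h2 h4
  simp only [List.nodup_cons, List.mem_singleton, List.not_mem_nil, not_false_eq_true,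
    List.nodup_nil, and_true] at h1' h3'
  obtain ⟨rfl, rfl⟩ := hC y a b a' b' (Ne.symm h1') (Ne.symm h3') (h2.trans h4.symm)
  rfl

/-- Double counting through local data. -/
lemma local_count {α β : Type*} [DecidableEq α] (E : Finset α) (L : Finset β)
    (Rel : β → α → Prop) [∀ q p, Decidable (Rel q p)] (B : ℕ)
    (hcov : ∀ p ∈ E, ∃ q ∈ L, Rel q p)
    (hB : ∀ q ∈ L, (E.filter (fun p => Rel q p)).card ≤ B) : E.card ≤ L.card * B := by
  have hsub : E ⊆ L.biUnion (fun q => E.filter (fun p => Rel q p)) := by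
    intro p hp
    obtain ⟨q, hq, hr⟩ := hcov p hp
    exact mem_biUnion.2 ⟨q, hq, mem_filter.2 ⟨hp, hr⟩⟩
  refine (card_le_card hsub).trans (card_biUnion_le.trans ?_)
  exact (Finset.sum_le_card_nsmul _ _ B hB).trans (by simp)

variable [Fintype V] [DecidableEq V]

/-- Local data: start vertex, closing colours at the earlier time, colours used in between. -/
abbrev Loc (V : Type*) (k : ℕ) := V × Fin k × Fin k × List (Fin k)

/-- `(x, l)` has local data `q` at distance `m` from the end. -/
def Sys.Rel (S : Sys V k) (m : ℕ) (q : Loc V k) (p : V × List (Fin k)) : Prop :=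
  q.1 = p.1 ∧ p.2.take m = q.2.2.2 ∧ S.Cl p.1 (p.2.drop m) q.2.1 q.2.2.1

/-- Bound of a fibre: all the earlier parts avoid the colours of `U₀`. -/
lemma fibre_le (hC : S.C4) (t m u : ℕ) (ht : 2 ≤ t) (E : Finset (V × List (Fin k)))
    (hE : ∀ p ∈ E, p.2 ∈ nd (∅ : Finset (Fin k)) (t + m)) (q : Loc V k)
    [∀ p, Decidable (S.Rel m q p)] (U₀ : Finset (Fin k)) (hu : u ≤ U₀.card)
    (hU : ∀ p ∈ E, S.Rel m q p → ∀ c ∈ p.2.drop m, c ∉ U₀) :
    (E.filter (fun p => S.Rel m q p)).card ≤ (k - u).descFactorial (t - 2) := by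
  obtain ⟨x, a, b, D⟩ := q
  have h1 : (E.filter (fun p => S.Rel m (x, a, b, D) p)).card ≤
      ((nd U₀ t).filter (fun l => S.ep l x = S.nb b (S.nb a x))).card := by
    apply Finset.card_le_card_of_injOn (fun p => p.2.drop m)
    · intro p hp
      rw [mem_coe, mem_filter] at hp
      obtain ⟨hpE, hr⟩ := hp
      obtain ⟨g1, g2, -⟩ := mem_nd.1 (hE p hpE)
      rw [mem_coe, mem_filter, mem_nd]
      refine ⟨⟨?_, g2.sublist (List.drop_sublist _ _), hU p hpE hr⟩, ?_⟩
      · rw [List.length_drop]; omega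
      · have := hr.2.2.2.2.2
        rw [← hr.1] at this
        exact this
    · intro p hp p' hp' he
      rw [mem_coe, mem_filter] at hp hp'
      have e1 : p.2 = p'.2 := by
        rw [← List.take_append_drop m p.2, ← List.take_append_drop m p'.2, hp.2.2.1, hp'.2.2.1]
        simp only at he
        rw [he]
      exact Prod.ext (hp.2.1.symm.trans hp'.2.1) e1
  refine h1.trans ?_
  have h2 := card_end_le S (T := 1) (fun y z => two_steps S hC y z) U₀ x (S.nb b (S.nb a x)) t ht
  rw [one_mul] at h2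
  refine h2.trans ?_
  exact Nat.descFactorial_le _ (by omega)

open Classical in
/-- Pairs (start vertex, rainbow list of length `t`) with a property. -/
noncomputable def ev (P : V → List (Fin k) → Prop) (t : ℕ) : Finset (V × List (Fin k)) :=
  (univ ×ˢ nd (∅ : Finset (Fin k)) t).filter (fun p : V × List (Fin k) => P p.1 p.2)

omit [DecidableEq V] in
lemma mem_ev {P : V → List (Fin k) → Prop} {t : ℕ} {p : V × List (Fin k)} :
    p ∈ ev P t ↔ p.2 ∈ nd (∅ : Finset (Fin k)) t ∧ P p.1 p.2 := by
  simp [ev]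

/-- Number of pairs (start vertex, rainbow list of length `t`) with a property. -/
noncomputable def cnt (P : V → List (Fin k) → Prop) (t : ℕ) : ℕ := (ev P t).card

/-- Probability for a uniformly random start vertex and rainbow list. -/
noncomputable def Pr (P : V → List (Fin k) → Prop) (t : ℕ) : ℝ :=
  (cnt P t : ℝ) / ((Fintype.card V : ℝ) * (k.descFactorial t : ℝ))

omit [DecidableEq V] in
lemma cnt_drop (P : V → List (Fin k) → Prop) (t j : ℕ) :
    cnt (V := V) (fun x l => P x (l.drop j)) (t + j) = cnt P t * (k - t).descFactorial j := by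
  classical
  have key : ∀ (Q : V → List (Fin k) → Prop) (u : ℕ),
      cnt (V := V) Q u = ∑ x : V, ((nd (∅ : Finset (Fin k)) u).filter (fun l => Q x l)).card := by
    intro Q u
    unfold cnt ev
    rw [Finset.card_filter, Finset.sum_product]
    apply Finset.sum_congr rfl
    intro x _
    rw [Finset.card_filter]
  rw [key, key, Finset.sum_mul]
  apply Finset.sum_congr rfl
  intro x _
  exact card_ext (fun l => P x l) t j

omit [DecidableEq V] in
lemma Pr_drop [Nonempty V] (P : V → List (Fin k) → Prop) (t j : ℕ) (h : t + j ≤ k) :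
    Pr (V := V) (fun x l => P x (l.drop j)) (t + j) = Pr P t := by
  unfold Pr
  rw [cnt_drop]
  have e : k.descFactorial (t + j) = (k - t).descFactorial j * k.descFactorial t := by
    rw [← Nat.descFactorial_mul_descFactorial (show t ≤ t + j by omega)]
    congr 1
    congr 1
    omega
  rw [e]
  have h1 : (0 : ℝ) < (Fintype.card V : ℝ) := by exact_mod_cast Fintype.card_pos
  have h2 : (0 : ℝ) < ((k - t).descFactorial j : ℕ) := by
    exact_mod_cast Nat.descFactorial_pos.2 (by omega)
  have h3 : (0 : ℝ) < (k.descFactorial t : ℕ) := by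
    exact_mod_cast Nat.descFactorial_pos.2 (by omega)
  push_cast
  field_simp

omit [DecidableEq V] in
lemma Pr_mono {P Q : V → List (Fin k) → Prop} {t : ℕ}
    (h : ∀ x, ∀ l ∈ nd (∅ : Finset (Fin k)) t, P x l → Q x l) : Pr (V := V) P t ≤ Pr Q t := by
  classical
  unfold Pr
  apply div_le_div_of_nonneg_right _ (by positivity)
  have : cnt (V := V) P t ≤ cnt Q t := by
    apply card_le_card
    intro p hp
    rw [mem_ev] at hp ⊢
    exact ⟨hp.1, h p.1 p.2 hp.1 hp.2⟩
  exact_mod_cast this

omit [DecidableEq V] in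
lemma Pr_or {P Q : V → List (Fin k) → Prop} {t : ℕ} :
    Pr (V := V) (fun x l => P x l ∨ Q x l) t ≤ Pr P t + Pr Q t := by
  classical
  unfold Pr
  rw [← add_div]
  apply div_le_div_of_nonneg_right _ (by positivity)
  have : cnt (V := V) (fun x l => P x l ∨ Q x l) t ≤ cnt P t + cnt Q t := by
    unfold cnt ev
    rw [Finset.card_filter, Finset.card_filter, Finset.card_filter, ← Finset.sum_add_distrib]
    apply Finset.sum_le_sum
    intro p _
    by_cases h1 : P p.1 p.2 <;> by_cases h2 : Q p.1 p.2 <;> simp [h1, h2]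
  exact_mod_cast this

omit [DecidableEq V] in
lemma Pr_nonneg (P : V → List (Fin k) → Prop) (t : ℕ) : 0 ≤ Pr (V := V) P t := by
  unfold Pr; positivity

omit [DecidableEq V] in
lemma cnt_le (P : V → List (Fin k) → Prop) (t : ℕ) :
    cnt (V := V) P t ≤ Fintype.card V * k.descFactorial t := by
  classical
  unfold cnt ev
  refine (card_filter_le _ _).trans ?_
  rw [card_product, card_nd]
  simp

omit [DecidableEq V] in
lemma Pr_le_one (P : V → List (Fin k) → Prop) (t : ℕ) : Pr (V := V) P t ≤ 1 := by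
  unfold Pr
  apply div_le_one_of_le₀ _ (by positivity)
  exact_mod_cast cnt_le P t

end RP97
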