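import Pool.Agent.RP97.Triple

/-!
Expectations over a random start vertex and rainbow list; near returns on a common space.
-/

namespace RP97

open Finset

variable {V : Type*} {k : ℕ} (S : Sys V k) [Fintype V] [DecidableEq V]

/-- Sample space. -/
def Om (V : Type*) [Fintype V] (k T : ℕ) : Finset (V × List (Fin k)) :=
  univ ×ˢ nd (∅ : Finset (Fin k)) T

/-- Expectation for a uniformly random start vertex and rainbow list of length `T`. -/
noncomputable def Ex (f : V → List (Fin k) → ℝ) (T : ℕ) : ℝ :=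
  (∑ p ∈ Om V k T, f p.1 p.2) / ((Fintype.card V : ℝ) * (k.descFactorial T : ℝ))

open Classical in
/-- Indicator of a proposition. -/
noncomputable def ind (P : Prop) : ℝ := if P then 1 else 0

lemma ind_or (P : Prop) : ind P = 0 ∨ ind P = 1 := by
  unfold ind; split_ifs <;> simp

lemma ind_nonneg (P : Prop) : 0 ≤ ind P := by
  rcases ind_or P with h | h <;> rw [h]; norm_num

lemma ind_le_one (P : Prop) : ind P ≤ 1 := by
  rcases ind_or P with h | h <;> rw [h]; norm_num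

lemma ind_and (P Q : Prop) : ind P * ind Q = ind (P ∧ Q) := by
  unfold ind; by_cases h1 : P <;> by_cases h2 : Q <;> simp [h1, h2]

omit [DecidableEq V] in
lemma Ex_ind (P : V → List (Fin k) → Prop) (T : ℕ) :
    Ex (fun x l => ind (P x l)) T = Pr (V := V) P T := by
  classical
  unfold Ex Pr cnt ev Om ind
  congr 1
  rw [Finset.card_filter]
  push_cast
  apply Finset.sum_congr rfl
  intro p _
  congr

omit [DecidableEq V] in
lemma Ex_mono {f g : V → List (Fin k) → ℝ} {T : ℕ} (h : ∀ x l, f x l ≤ g x l) :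
    Ex (V := V) f T ≤ Ex g T := by
  unfold Ex
  apply div_le_div_of_nonneg_right _ (by positivity)
  exact Finset.sum_le_sum (fun p _ => h p.1 p.2)

omit [DecidableEq V] in
lemma Ex_add (f g : V → List (Fin k) → ℝ) (T : ℕ) :
    Ex (V := V) (fun x l => f x l + g x l) T = Ex f T + Ex g T := by
  unfold Ex
  rw [Finset.sum_add_distrib, add_div]

omit [DecidableEq V] in
lemma Ex_mul (r : ℝ) (f : V → List (Fin k) → ℝ) (T : ℕ) :
    Ex (V := V) (fun x l => r * f x l) T = r * Ex f T := by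
  unfold Ex
  rw [← Finset.mul_sum, mul_div_assoc]

omit [DecidableEq V] in
lemma Ex_sum {ι : Type*} (s : Finset ι) (f : ι → V → List (Fin k) → ℝ) (T : ℕ) :
    Ex (V := V) (fun x l => ∑ i ∈ s, f i x l) T = ∑ i ∈ s, Ex (f i) T := by
  unfold Ex
  rw [Finset.sum_comm, Finset.sum_div]

omit [DecidableEq V] in
lemma Ex_const [Nonempty V] (r : ℝ) (T : ℕ) (hT : T ≤ k) :
    Ex (V := V) (k := k) (fun _ _ => r) T = r := by
  unfold Ex Om
  rw [Finset.sum_const, card_product, card_nd]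
  have hn : (0 : ℝ) < (Fintype.card V : ℝ) := by exact_mod_cast Fintype.card_pos
  have hD : (0 : ℝ) < (k.descFactorial T : ℝ) := by
    exact_mod_cast Nat.descFactorial_pos.2 hT
  simp only [card_univ, card_empty, Nat.sub_zero, nsmul_eq_mul, Nat.cast_mul]
  field_simp

/-- Near return when `s` colours stay unused after closing, on the common space. -/
noncomputable def Sys.I (S : Sys V k) (s : ℕ) (x : V) (l : List (Fin k)) : ℝ :=
  ind (S.A x (l.drop (s - 1)))

/-- Probability of a near return when `s` colours stay unused after closing. -/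
noncomputable def Sys.a (S : Sys V k) (s : ℕ) : ℝ := Pr S.A (k - 2 - s)

section

variable [Nonempty V]

omit [DecidableEq V] in
lemma Ex_I (s : ℕ) (h1 : 1 ≤ s) (h2 : s + 3 ≤ k) : Ex (S.I s) (k - 3) = S.a s := by
  unfold Sys.I Sys.a
  rw [Ex_ind]
  have := Pr_drop (V := V) S.A (k - 2 - s) (s - 1) (by omega)
  rw [← this]
  congr 1
  omega

lemma Ex_II (hC : S.C4) (s s' : ℕ) (h1 : 1 ≤ s') (h2 : s' < s) (h3 : s + 4 ≤ k)
    (h4 : 4 * (s - s' + 2) ≤ k) :
    Ex (fun x l => S.I s x l * S.I s' x l) (k - 3) ≤ (4 * s + 13) / k := by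
  unfold Sys.I
  simp only [ind_and]
  rw [Ex_ind]
  have e := Pr_drop (V := V) (fun x l => S.A x (l.drop (s - s')) ∧ S.A x l) (k - 2 - s') (s' - 1)
    (by omega)
  have e1 : k - 2 - s' + (s' - 1) = k - 3 := by omega
  have e2 : ∀ l : List (Fin k), (l.drop (s' - 1)).drop (s - s') = l.drop (s - 1) := by
    intro l
    rw [List.drop_drop]; congr 1; omega
  rw [e1] at e
  simp only [e2] at e
  rw [e]
  have hb := Pr_both S hC (k - 2 - s) (s - s') (by omega) (by omega) (by omega) h4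
  have e3 : k - 2 - s + (s - s') = k - 2 - s' := by omega
  rw [e3] at hb
  refine hb.trans (le_of_eq ?_)
  have e4 : ((k - 2 - s : ℕ) : ℝ) = (k : ℝ) - 2 - s := by
    rw [Nat.cast_sub (by omega), Nat.cast_sub (by omega)]; norm_num
  rw [e4]
  congr 1
  ring

lemma Ex_III (hC : S.C4) (s₁ s₂ s₃ : ℕ) (h1 : 1 ≤ s₁) (h2 : s₁ + 2 ≤ s₂) (h3 : s₂ + 2 ≤ s₃)
    (h4 : s₃ + 4 ≤ k) (h5 : 4 * (s₃ - s₁ + 2) ≤ k) :
    Ex (fun x l => S.I s₁ x l * S.I s₂ x l * S.I s₃ x l) (k - 3) ≤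
      (((s₁ : ℝ) + 2) / (k - 2 - (s₃ - s₁))) ^ 4 + (8 * ((s₃ : ℝ) - s₁) + 39) / k := by
  unfold Sys.I
  simp only [ind_and]
  rw [Ex_ind]
  have e := Pr_drop (V := V) (fun x l => S.A x (l.drop ((s₃ - s₂) + (s₂ - s₁))) ∧
    S.A x (l.drop (s₂ - s₁)) ∧ S.A x l) (k - 2 - s₁) (s₁ - 1) (by omega)
  have e1 : k - 2 - s₁ + (s₁ - 1) = k - 3 := by omega
  have e2 : ∀ l : List (Fin k), (l.drop (s₁ - 1)).drop ((s₃ - s₂) + (s₂ - s₁))
      = l.drop (s₃ - 1) := by
    intro l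
    rw [List.drop_drop]; congr 1; omega
  have e2' : ∀ l : List (Fin k), (l.drop (s₁ - 1)).drop (s₂ - s₁) = l.drop (s₂ - 1) := by
    intro l
    rw [List.drop_drop]; congr 1; omega
  rw [e1] at e
  simp only [e2, e2'] at e
  have hsw : Pr (fun x l => (S.A x (l.drop (s₁ - 1)) ∧ S.A x (l.drop (s₂ - 1))) ∧
      S.A x (l.drop (s₃ - 1))) (k - 3) ≤
      Pr (fun x l => S.A x (l.drop (s₃ - 1)) ∧ S.A x (l.drop (s₂ - 1)) ∧
      S.A x (l.drop (s₁ - 1))) (k - 3) := by
    apply Pr_mono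
    rintro x l _ ⟨⟨g1, g2⟩, g3⟩
    exact ⟨g3, g2, g1⟩
  refine hsw.trans ?_
  rw [e]
  have hb := Pr_triple S hC (k - 2 - s₃) (s₃ - s₂) (s₂ - s₁) (by omega) (by omega) (by omega)
    (by omega) (by omega)
  have e3 : k - 2 - s₃ + ((s₃ - s₂) + (s₂ - s₁)) = k - 2 - s₁ := by omega
  rw [e3] at hb
  refine hb.trans (le_of_eq ?_)
  have e4 : ((k - 2 - s₃ : ℕ) : ℝ) = (k : ℝ) - 2 - s₃ := by
    rw [Nat.cast_sub (by omega), Nat.cast_sub (by omega)]; norm_num
  have e5 : (((s₃ - s₂) + (s₂ - s₁) : ℕ) : ℝ) = (s₃ : ℝ) - s₁ := by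
    have : (s₃ - s₂) + (s₂ - s₁) = s₃ - s₁ := by omega
    rw [this, Nat.cast_sub (by omega)]
  rw [e4, e5]
  congr 2
  congr 1
  · ring
  · ring

end

/-- Weights of the first moment. -/
noncomputable def w (s : ℕ) : ℝ := (s : ℝ) / ((s + 1) * (s + 2))

lemma w_nonneg (s : ℕ) : 0 ≤ w s := by unfold w; positivity

lemma w_le_sixth (s : ℕ) : w s ≤ 1 / 6 := by
  unfold w
  rw [div_le_div_iff₀ (by positivity) (by norm_num)]
  have : (s : ℤ) * 6 ≤ 1 * ((s + 1) * (s + 2)) := by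
    rcases Nat.lt_or_ge s 2 with h | h
    · interval_cases s <;> norm_num
    · have : (2 : ℤ) ≤ s := by exact_mod_cast h
      nlinarith
  exact_mod_cast this

lemma w_le (s : ℕ) : w s ≤ 1 / (s + 3) := by
  unfold w
  rw [div_le_div_iff₀ (by positivity) (by positivity)]
  nlinarith

lemma w_anti {s s' : ℕ} (h : 1 ≤ s) (hs : s ≤ s') : w s' ≤ w s := by
  obtain ⟨j, rfl⟩ := Nat.exists_eq_add_of_le hs
  induction j with
  | zero => simp
  | succ j ih =>
    refine le_trans ?_ (ih (by omega))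
    unfold w
    rw [div_le_div_iff₀ (by positivity) (by positivity)]
    push_cast
    have h1 : (1 : ℝ) ≤ s := by exact_mod_cast h
    have h2 : (0 : ℝ) ≤ j := by positivity
    set u : ℝ := (s : ℝ) + j with hu
    have hu1 : 1 ≤ u := by linarith
    have e1 : (s : ℝ) + (j + 1) = u + 1 := by rw [hu]; ring
    rw [e1]
    nlinarith [mul_pos (show (0 : ℝ) < u + 1 by linarith) (show (0 : ℝ) < u + 2 by linarith)]

/-- The closing step. -/
lemma card_closed_le_cnt (hC : S.C4) (ℓ : ℕ) (h : 2 ≤ ℓ) :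
    (S.closed ℓ).card ≤ cnt S.A (ℓ - 2) := by
  classical
  unfold cnt
  have key : ∀ p ∈ S.closed ℓ, ∃ d c T, p.2 = d :: c :: T ∧ T ∈ nd (∅ : Finset (Fin k)) (ℓ - 2) ∧
      S.Cl p.1 T d c := by
    rintro ⟨x, l⟩ hp
    rw [mem_closed] at hp
    obtain ⟨⟨h1, h2⟩, h3⟩ := hp
    simp only at h1 h2 h3
    match l, h1, h2, h3 with
    | [], h1, _, _ => simp at h1; omega
    | [_], h1, _, _ => simp at h1; omega
    | d :: c :: T, h1, h2, h3 =>
      refine ⟨d, c, T, rfl, ?_, ?_⟩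
      · refine mem_nd.2 ⟨?_, ?_, by simp⟩
        · simp only [List.length_cons] at h1; omega
        · exact (List.nodup_cons.1 (List.nodup_cons.1 h2).2).2
      · simp only [List.nodup_cons, List.mem_cons, not_or] at h2
        refine ⟨h2.1.1, h2.1.2, h2.2.1, ?_⟩
        simp only [ep_cons] at h3
        rw [← h3, S.invol, S.invol, h3]
  apply Finset.card_le_card_of_injOn (fun p => (p.1, p.2.drop 2))
  · intro p hp
    rw [mem_coe] at hp
    obtain ⟨d, c, T, e1, e2, e3⟩ := key p hp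
    rw [mem_coe, mem_ev]
    simp only [e1, List.drop_succ_cons, List.drop_zero]
    exact ⟨e2, d, c, e3⟩
  · intro p hp p' hp' he
    rw [mem_coe] at hp hp'
    obtain ⟨d, c, T, e1, e2, e3⟩ := key p hp
    obtain ⟨d', c', T', e1', e2', e3'⟩ := key p' hp'
    simp only [e1, e1', List.drop_succ_cons, List.drop_zero, Prod.mk.injEq] at he
    obtain ⟨hx, hT⟩ := he
    subst hT
    rw [← hx] at e3'
    obtain ⟨q1, q2⟩ := Cl_unique S hC e3 e3' rfl
    subst q1 q2
    exact Prod.ext hx (by rw [e1, e1'])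

lemma closed_one : S.closed 1 = ∅ := by
  rw [Finset.eq_empty_iff_forall_notMem]
  rintro ⟨x, l⟩ hp
  rw [mem_closed] at hp
  obtain ⟨⟨h1, h2⟩, h3⟩ := hp
  obtain ⟨c, rfl⟩ := List.length_eq_one_iff.1 h1
  exact S.ne c x h3

omit [DecidableEq V] in
lemma cnt_A_zero : cnt S.A 0 = 0 := by
  classical
  unfold cnt
  rw [card_eq_zero, Finset.eq_empty_iff_forall_notMem]
  rintro ⟨x, l⟩ hp
  rw [mem_ev, mem_nd] at hp
  obtain ⟨⟨h1, -, -⟩, a, b, hab, -, -, h⟩ := hp
  have : l = [] := List.length_eq_zero_iff.1 h1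
  subst this
  exact hab (two_step S x a b h.symm)

/-- First moment inequality. -/
lemma main_ineq [Nonempty V] (hC : S.C4) (hk : 4 ≤ k)
    (hno : ∀ x : V, ∀ l ∈ nd (∅ : Finset (Fin k)) (k - 1), ¬ (S.verts l x).Nodup) :
    1 ≤ ∑ s ∈ Icc 1 (k - 3), w s * S.a s := by
  have h0 := main_count S (k - 1) hno
  have hn : (0 : ℝ) < (Fintype.card V : ℝ) := by exact_mod_cast Fintype.card_pos
  have hD : (0 : ℝ) < (k.descFactorial (k - 1) : ℝ) := by
    exact_mod_cast Nat.descFactorial_pos.2 (by omega)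
  -- the terms with `ℓ ≤ 2` vanish
  have h1 : (∑ ℓ ∈ Icc 1 (k - 1), (k - 1 - ℓ + 1) *
      ((S.closed ℓ).card * (k - ℓ).descFactorial (k - 1 - ℓ))) =
      ∑ ℓ ∈ Icc 3 (k - 1), (k - 1 - ℓ + 1) *
      ((S.closed ℓ).card * (k - ℓ).descFactorial (k - 1 - ℓ)) := by
    symm
    apply Finset.sum_subset
    · intro ℓ hℓ
      rw [mem_Icc] at hℓ ⊢
      omega
    · intro ℓ hℓ hℓ'
      rw [mem_Icc] at hℓ hℓ'
      have : ℓ = 1 ∨ ℓ = 2 := by omega
      rcases this with rfl | rfl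
      · rw [closed_one]; simp
      · have := card_closed_le_cnt S hC 2 le_rfl
        rw [Nat.sub_self, cnt_A_zero] at this
        have : (S.closed 2).card = 0 := by omega
        rw [this]; simp
  rw [h1] at h0
  have h2 : (1 : ℝ) ≤ (∑ ℓ ∈ Icc 3 (k - 1), ((k - 1 - ℓ + 1 : ℕ) : ℝ) *
      (((S.closed ℓ).card : ℝ) * ((k - ℓ).descFactorial (k - 1 - ℓ) : ℝ))) /
      ((Fintype.card V : ℝ) * (k.descFactorial (k - 1) : ℝ)) := by
    rw [le_div_iff₀ (by positivity), one_mul]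
    exact_mod_cast h0
  refine h2.trans ?_
  rw [Finset.sum_div]
  have h3 : ∀ ℓ ∈ Icc 3 (k - 1), ((k - 1 - ℓ + 1 : ℕ) : ℝ) *
      (((S.closed ℓ).card : ℝ) * ((k - ℓ).descFactorial (k - 1 - ℓ) : ℝ)) /
      ((Fintype.card V : ℝ) * (k.descFactorial (k - 1) : ℝ)) ≤ w (k - ℓ) * S.a (k - ℓ) := by
    intro ℓ hℓ
    rw [mem_Icc] at hℓ
    have hcl : ((S.closed ℓ).card : ℝ) ≤ (cnt S.A (ℓ - 2) : ℝ) := by
      exact_mod_cast card_closed_le_cnt S hC ℓ (by omega)
    have e1 : k.descFactorial (k - 1) = (k - ℓ).descFactorial (k - 1 - ℓ) *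
        k.descFactorial ℓ := (Nat.descFactorial_mul_descFactorial (by omega)).symm
    have e2 : k.descFactorial ℓ = (k - ℓ + 1) * ((k - ℓ + 2) * k.descFactorial (ℓ - 2)) := by
      obtain ⟨j, rfl⟩ : ∃ j, ℓ = j + 2 := ⟨ℓ - 2, by omega⟩
      rw [show j + 2 = (j + 1) + 1 by ring, Nat.descFactorial_succ, Nat.descFactorial_succ]
      have a1 : k - (j + 1) = k - (j + 1 + 1) + 1 := by omega
      have a2 : k - j = k - (j + 1 + 1) + 2 := by omega
      rw [a1, a2]
      simp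
    unfold Sys.a Pr w
    have e3 : k - 2 - (k - ℓ) = ℓ - 2 := by omega
    have e4 : k - 1 - ℓ + 1 = k - ℓ := by omega
    rw [e3, e4, e1, e2]
    have p1 : (0 : ℝ) < ((k - ℓ).descFactorial (k - 1 - ℓ) : ℝ) := by
      exact_mod_cast Nat.descFactorial_pos.2 (by omega)
    have p2 : (0 : ℝ) < (k.descFactorial (ℓ - 2) : ℝ) := by
      exact_mod_cast Nat.descFactorial_pos.2 (by omega)
    push_cast
    set u : ℝ := ((k - ℓ : ℕ) : ℝ) with hu
    have hu0 : 0 ≤ u := by positivity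
    rw [div_mul_div_comm, div_le_div_iff₀ (by positivity) (by positivity)]
    set F := ((k - ℓ).descFactorial (k - 1 - ℓ) : ℝ)
    set G := (k.descFactorial (ℓ - 2) : ℝ)
    set n := (Fintype.card V : ℝ)
    set C := ((S.closed ℓ).card : ℝ)
    set C' := (cnt S.A (ℓ - 2) : ℝ)
    have hpos : (0 : ℝ) ≤ u * F * ((u + 1) * (u + 2)) * n * G := by positivity
    calc u * (C * F) * ((u + 1) * (u + 2) * (n * G))
        = C * (u * F * ((u + 1) * (u + 2)) * n * G) := by ring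
      _ ≤ C' * (u * F * ((u + 1) * (u + 2)) * n * G) := mul_le_mul_of_nonneg_right hcl hpos
      _ = _ := by ring
  refine (Finset.sum_le_sum h3).trans (le_of_eq ?_)
  apply Finset.sum_nbij' (fun ℓ => k - ℓ) (fun s => k - s)
  · intro ℓ hℓ; rw [mem_Icc] at hℓ ⊢; omega
  · intro ℓ hℓ; rw [mem_Icc] at hℓ ⊢; omega
  · intro ℓ hℓ; rw [mem_Icc] at hℓ; omega
  · intro ℓ hℓ; rw [mem_Icc] at hℓ; omega
  · intro ℓ _; rfl

end RP97
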