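import Pool.Agent.RP97.Regions

/-!
Numerical end of the argument.
-/

namespace RP97

open Finset

lemma shift_sum (a : ℕ → ℝ) (ha : ∀ s, 0 ≤ a s) (s₁ L B : ℕ) (hs : 1 ≤ s₁) :
    (L : ℝ) * ∑ s ∈ Icc (s₁ + 2 * L) B, w s * a s ≤
      ∑ s ∈ Icc s₁ B, w s * ∑ i ∈ range L, a (s + 2 * i) := by
  have h1 : ∀ i ∈ range L, ∑ s ∈ Icc (s₁ + 2 * L) B, w s * a s ≤
      ∑ s ∈ Icc s₁ B, w s * a (s + 2 * i) := by
    intro i hi
    rw [mem_range] at hi
    calc ∑ s ∈ Icc (s₁ + 2 * L) B, w s * a s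
        ≤ ∑ s ∈ Icc (s₁ + 2 * L) B, w (s - 2 * i) * a ((s - 2 * i) + 2 * i) := by
          apply Finset.sum_le_sum
          intro s hs'
          rw [mem_Icc] at hs'
          rw [Nat.sub_add_cancel (by omega)]
          exact mul_le_mul_of_nonneg_right (w_anti (by omega) (by omega)) (ha s)
      _ = ∑ s ∈ (Icc (s₁ + 2 * L) B).image (fun s => s - 2 * i), w s * a (s + 2 * i) := by
          rw [Finset.sum_image]
          intro x hx y hy h
          simp only [coe_Icc, Set.mem_Icc] at hx hy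
          simp only at h
          omega
      _ ≤ ∑ s ∈ Icc s₁ B, w s * a (s + 2 * i) := by
          apply Finset.sum_le_sum_of_subset_of_nonneg
          · intro s hs'
            rw [mem_image] at hs'
            obtain ⟨x, hx, rfl⟩ := hs'
            rw [mem_Icc] at hx ⊢
            omega
          · intro s _ _
            exact mul_nonneg (w_nonneg s) (ha _)
  calc (L : ℝ) * ∑ s ∈ Icc (s₁ + 2 * L) B, w s * a s
      = ∑ _i ∈ range L, ∑ s ∈ Icc (s₁ + 2 * L) B, w s * a s := by simp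
    _ ≤ ∑ i ∈ range L, ∑ s ∈ Icc s₁ B, w s * a (s + 2 * i) := Finset.sum_le_sum h1
    _ = ∑ s ∈ Icc s₁ B, ∑ i ∈ range L, w s * a (s + 2 * i) := Finset.sum_comm
    _ = _ := by
        apply Finset.sum_congr rfl
        intro s _
        rw [Finset.mul_sum]

lemma sum_union_le (s t : Finset ℕ) (f : ℕ → ℝ) (hf : ∀ i, 0 ≤ f i) :
    ∑ i ∈ s ∪ t, f i ≤ ∑ i ∈ s, f i + ∑ i ∈ t, f i := by
  rw [← Finset.sum_union_inter]
  have : 0 ≤ ∑ i ∈ s ∩ t, f i := Finset.sum_nonneg (fun i _ => hf i)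
  linarith

/-- One term of the second range. -/
lemma per_s (K l Q σ s v e : ℝ) (hQ : 10 ^ 4 ≤ Q) (hl1 : 1 ≤ l)
    (hKl : 10 ^ 18 * l ≤ K) (hσ : 10 ^ 5 * (2 * l) ≤ σ) (hKσ : K ≤ 2 * σ * Q)
    (hs : σ ≤ s) (hv0 : 0 ≤ v) (hv : v ≤ 1 / (s + 3)) (he : 0 ≤ e) :
    v * ((((s + 2 * l) / (K - 2 * l)) ^ 4 + e) /
      (3 * (4 / 5 * ((s + 2 * l) / (K - 2 * l))) ^ 2) +
        2 * (4 / 5 * ((s + 2 * l) / (K - 2 * l))) / 3) ≤
      25 / 48 * (10003 / 10000) * ((s + 2 * l) / K ^ 2) + 8 / 15 * (10001 / 10000) / K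
        + 25 / 12 * Q ^ 2 * e * v := by
  set κ := (s + 2 * l) / (K - 2 * l) with hκ
  have hs0 : 0 < s := by linarith
  have hK0 : 0 < K := by linarith
  have hKl0 : 0 < K - 2 * l := by linarith
  have hκ0 : 0 < κ := by positivity
  have hQ0 : 0 < Q := by linarith
  have e1 : v * ((κ ^ 4 + e) / (3 * (4 / 5 * κ) ^ 2) + 2 * (4 / 5 * κ) / 3) =
      25 / 48 * (v * κ ^ 2) + 8 / 15 * (v * κ) + 25 / 48 * (e * v * (1 / κ ^ 2)) := by
    field_simp
    ring
  rw [e1]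
  have hvκ : v * κ ≤ 10001 / 10000 / K := by
    calc v * κ ≤ 1 / (s + 3) * κ := mul_le_mul_of_nonneg_right hv hκ0.le
      _ = (s + 2 * l) / ((s + 3) * (K - 2 * l)) := by rw [hκ]; field_simp
      _ ≤ 10001 / 10000 / K := by
          rw [div_le_div_iff₀ (by positivity) hK0]
          have a1 : s + 2 * l ≤ 100001 / 100000 * (s + 3) := by linarith
          have a2 : K ≤ 100001 / 100000 * (K - 2 * l) := by linarith
          calc (s + 2 * l) * K ≤ (100001 / 100000 * (s + 3)) * (100001 / 100000 * (K - 2 * l)) :=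
                mul_le_mul a1 a2 hK0.le (by positivity)
            _ ≤ 10001 / 10000 * ((s + 3) * (K - 2 * l)) := by
                have : 0 < (s + 3) * (K - 2 * l) := by positivity
                nlinarith
  have hκle : κ ≤ 10001 / 10000 * (s + 2 * l) / K := by
    rw [hκ, div_le_div_iff₀ hKl0 hK0]
    have a2 : K ≤ 10001 / 10000 * (K - 2 * l) := by linarith
    have a3 : 0 < s + 2 * l := by linarith
    calc (s + 2 * l) * K ≤ (s + 2 * l) * (10001 / 10000 * (K - 2 * l)) :=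
          mul_le_mul_of_nonneg_left a2 a3.le
      _ = _ := by ring
  have hvκ2 : v * κ ^ 2 ≤ 10003 / 10000 * ((s + 2 * l) / K ^ 2) := by
    calc v * κ ^ 2 = (v * κ) * κ := by ring
      _ ≤ (10001 / 10000 / K) * (10001 / 10000 * (s + 2 * l) / K) :=
          mul_le_mul hvκ hκle hκ0.le (by positivity)
      _ = (10001 / 10000) ^ 2 * ((s + 2 * l) / K ^ 2) := by field_simp
      _ ≤ _ := by
          apply mul_le_mul_of_nonneg_right (by norm_num)
          positivity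
  have hκge : 1 / (2 * Q) ≤ κ := by
    rw [hκ, div_le_div_iff₀ (by positivity) hKl0]
    have a1 : σ * Q ≤ s * Q := mul_le_mul_of_nonneg_right hs hQ0.le
    nlinarith [mul_pos hQ0 (show (0 : ℝ) < l by linarith)]
  have hinv : 1 / κ ^ 2 ≤ 4 * Q ^ 2 := by
    have a1 : (1 / (2 * Q)) ^ 2 ≤ κ ^ 2 := pow_le_pow_left₀ (by positivity) hκge 2
    rw [div_le_iff₀ (by positivity)]
    have a2 : (1 / (2 * Q)) ^ 2 * (4 * Q ^ 2) = 1 := by field_simp; ring
    nlinarith [mul_le_mul_of_nonneg_right a1 (show (0 : ℝ) ≤ 4 * Q ^ 2 by positivity)]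
  have hlast : e * v * (1 / κ ^ 2) ≤ e * v * (4 * Q ^ 2) :=
    mul_le_mul_of_nonneg_left hinv (by positivity)
  have f1 : 25 / 48 * (v * κ ^ 2) ≤ 25 / 48 * (10003 / 10000) * ((s + 2 * l) / K ^ 2) := by
    rw [mul_assoc]
    exact mul_le_mul_of_nonneg_left hvκ2 (by norm_num)
  have f2 : 8 / 15 * (v * κ) ≤ 8 / 15 * (10001 / 10000) / K := by
    rw [mul_div_assoc]
    exact mul_le_mul_of_nonneg_left hvκ (by norm_num)
  have f3 : 25 / 48 * (e * v * (1 / κ ^ 2)) ≤ 25 / 12 * Q ^ 2 * e * v := by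
    calc 25 / 48 * (e * v * (1 / κ ^ 2)) ≤ 25 / 48 * (e * v * (4 * Q ^ 2)) :=
          mul_le_mul_of_nonneg_left hlast (by norm_num)
      _ = _ := by ring
  linarith

lemma final_lt (k q L s₁ : ℕ) (H : ℝ) (a : ℕ → ℝ) (hH1 : 1 ≤ H)
    (hHs : ∑ s ∈ Icc 1 k, w s ≤ H) (hq : 10 ^ 4 * H ^ 2 ≤ q) (hL : L = 1000 * q ^ 3)
    (hk : 10 ^ 9 * q ^ 6 ≤ k) (hs₁ : s₁ = k / q) (ha0 : ∀ s, 0 ≤ a s) (ha1 : ∀ s, a s ≤ 1)
    (hI : ∀ S₁ : ℕ, 4 * (S₁ + 2) ≤ k → ∑ s ∈ Icc 1 S₁, w s * a s ≤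
      1 / 6 + 6 * ((4 * (S₁ : ℝ) + 13) / k) * (∑ s ∈ Icc 1 S₁, w s) ^ 2)
    (hII : ∀ s : ℕ, 1 ≤ s → s + 2 * L + 2 ≤ k → 8 * L ≤ k → ∀ c : ℝ, 0 < c →
      (∑ i ∈ range L, a (s + 2 * i)) / L ≤
      ((((s : ℝ) + 2 * L) / (k - 2 * L)) ^ 4 + (16 * (L : ℝ) + 39) / k + 3 / L) / (3 * c ^ 2)
        + 2 * c / 3) :
    ∑ s ∈ Icc 1 (k - 3), w s * a s < 1 := by
  -- sizes
  have hQ : (10 : ℝ) ^ 4 ≤ q := by nlinarith
  have hqn : 10 ^ 4 ≤ q := by exact_mod_cast hQ
  have hlR : (L : ℝ) = 1000 * (q : ℝ) ^ 3 := by rw [hL]; push_cast; ring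
  have hKR : (10 : ℝ) ^ 9 * (q : ℝ) ^ 6 ≤ k := by exact_mod_cast hk
  set Q : ℝ := (q : ℝ) with hQdef
  set K : ℝ := (k : ℝ) with hKdef
  set l : ℝ := (L : ℝ) with hldef
  have hQ0 : 0 < Q := by linarith
  have hQ3 : (10 : ℝ) ^ 12 ≤ Q ^ 3 := by
    have := pow_le_pow_left₀ (by positivity) hQ 3
    norm_num at this ⊢
    linarith
  have hKl : 10 ^ 6 * Q ^ 3 * l ≤ K := by
    rw [hlR]
    nlinarith
  have hl1 : 1 ≤ l := by rw [hlR]; nlinarith
  have hl0 : 0 < l := by linarith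
  have hKl18 : 10 ^ 18 * l ≤ K := by nlinarith
  have hK0 : 0 < K := by linarith
  have hkn0 : 0 < k := by rw [hKdef] at hK0; exact_mod_cast hK0
  have hLk18 : 10 ^ 18 * L ≤ k := by rw [hKdef, hldef] at hKl18; exact_mod_cast hKl18
  have hL1 : 1 ≤ L := by rw [hldef] at hl1; exact_mod_cast hl1
  -- the splitting point
  have hs1q : s₁ * q ≤ k := by rw [hs₁]; exact Nat.div_mul_le_self k q
  have hs1q' : k < (s₁ + 1) * q := by
    rw [hs₁]
    have := Nat.div_add_mod k q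
    have h2 := Nat.mod_lt k (show q > 0 by omega)
    nlinarith
  set σ : ℝ := (s₁ : ℝ) with hσdef
  have hσQ : σ * Q ≤ K := by rw [hσdef, hQdef, hKdef]; exact_mod_cast hs1q
  have hσQ' : K < (σ + 1) * Q := by rw [hσdef, hQdef, hKdef]; exact_mod_cast hs1q'
  have hσbig : 1 ≤ σ := by
    by_contra hcon
    push Not at hcon
    have : K < 2 * Q := by nlinarith
    have : Q ≤ Q ^ 6 := by
      have : Q ^ 1 ≤ Q ^ 6 := pow_le_pow_right₀ (by linarith) (by norm_num)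
      simpa using this
    linarith
  have hKσ : K ≤ 2 * σ * Q := by nlinarith
  have hσ0 : 0 < σ := by linarith
  have hσl : 10 ^ 5 * (2 * l) ≤ σ := by
    have h1 : 10 ^ 6 * Q ^ 3 * l ≤ 2 * σ * Q := hKl.trans hKσ
    have h2 : 10 ^ 6 * Q ^ 2 * l ≤ 2 * σ := by
      have : (10 ^ 6 * Q ^ 2 * l) * Q ≤ (2 * σ) * Q := by
        calc (10 ^ 6 * Q ^ 2 * l) * Q = 10 ^ 6 * Q ^ 3 * l := by ring
          _ ≤ _ := h1
      exact le_of_mul_le_mul_right this hQ0
    have h3 : 1 ≤ Q ^ 2 := one_le_pow₀ (by linarith)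
    nlinarith [mul_le_mul_of_nonneg_right h3 hl0.le]
  have hs1 : 1 ≤ s₁ := by rw [hσdef] at hσbig; exact_mod_cast hσbig
  have hσK : 10 ^ 4 * σ ≤ K := by nlinarith
  have hs1k : 10 ^ 4 * s₁ ≤ k := by rw [hσdef, hKdef] at hσK; exact_mod_cast hσK
  -- subsums of the weights
  have hsub : ∀ T : Finset ℕ, T ⊆ Icc 1 k → ∑ s ∈ T, w s ≤ H := fun T hT =>
    (Finset.sum_le_sum_of_subset_of_nonneg hT (fun s _ _ => w_nonneg s)).trans hHs
  set B : ℕ := k - 4 - 2 * L with hB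
  -- split the sum
  have hwa : ∀ s, 0 ≤ w s * a s := fun s => mul_nonneg (w_nonneg s) (ha0 s)
  have hsplit : ∑ s ∈ Icc 1 (k - 3), w s * a s ≤
      ∑ s ∈ Icc 1 (s₁ + 2 * L - 1), w s * a s + (∑ s ∈ Icc (s₁ + 2 * L) B, w s * a s
        + ∑ s ∈ Icc (B + 1) (k - 3), w s * a s) := by
    have h1 : Icc 1 (k - 3) ⊆ Icc 1 (s₁ + 2 * L - 1) ∪ (Icc (s₁ + 2 * L) B ∪
        Icc (B + 1) (k - 3)) := by
      intro s hs
      simp only [mem_union, mem_Icc] at hs ⊢
      omega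
    refine (Finset.sum_le_sum_of_subset_of_nonneg h1 (fun s _ _ => hwa s)).trans ?_
    refine (sum_union_le _ _ _ hwa).trans ?_
    exact add_le_add_right (sum_union_le _ _ _ hwa) _
  -- first range
  have hR1 : ∑ s ∈ Icc 1 (s₁ + 2 * L - 1), w s * a s ≤ 1 / 6 + 25 / 10000 := by
    refine (hI (s₁ + 2 * L - 1) (by omega)).trans ?_
    have hS : (((s₁ + 2 * L - 1 : ℕ)) : ℝ) ≤ σ + 2 * l := by
      have : s₁ + 2 * L - 1 ≤ s₁ + 2 * L := by omega
      have h2 : (((s₁ + 2 * L - 1 : ℕ)) : ℝ) ≤ ((s₁ + 2 * L : ℕ) : ℝ) := by exact_mod_cast this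
      push_cast at h2
      exact h2
    have hW : ∑ s ∈ Icc 1 (s₁ + 2 * L - 1), w s ≤ H := hsub _ (by
      intro s hs
      rw [mem_Icc] at hs ⊢
      omega)
    have hW0 : 0 ≤ ∑ s ∈ Icc 1 (s₁ + 2 * L - 1), w s :=
      Finset.sum_nonneg (fun s _ => w_nonneg s)
    have hW2 : (∑ s ∈ Icc 1 (s₁ + 2 * L - 1), w s) ^ 2 ≤ H ^ 2 := pow_le_pow_left₀ hW0 hW 2
    have h3 : 6 * ((4 * (((s₁ + 2 * L - 1 : ℕ)) : ℝ) + 13) / K) *
        (∑ s ∈ Icc 1 (s₁ + 2 * L - 1), w s) ^ 2 ≤ 6 * ((4 * (σ + 2 * l) + 13) / K) * H ^ 2 := by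
      gcongr
    have h4 : 6 * ((4 * (σ + 2 * l) + 13) / K) * H ^ 2 ≤ 25 / 10000 := by
      have hH2 : H ^ 2 ≤ Q / 10 ^ 4 := by rw [le_div_iff₀ (by positivity)]; linarith
      have h5 : 6 * ((4 * (σ + 2 * l) + 13) / K) * H ^ 2 ≤
          6 * ((4 * (σ + 2 * l) + 13) / K) * (Q / 10 ^ 4) := by
        gcongr
      refine h5.trans ?_
      have h6 : 6 * ((4 * (σ + 2 * l) + 13) / K) * (Q / 10 ^ 4) =
          (6 * (4 * (σ + 2 * l) + 13) * Q / 10 ^ 4) / K := by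
        field_simp
      rw [h6, div_le_iff₀ hK0]
      have h7 : 8 * l + 13 ≤ 21 * l := by linarith
      have h8 : l * Q ≤ K / 10 ^ 6 := by
        rw [le_div_iff₀ (by positivity)]
        have : Q ≤ Q ^ 3 := by
          have : Q ^ 1 ≤ Q ^ 3 := pow_le_pow_right₀ (by linarith) (by norm_num)
          simpa using this
        nlinarith [mul_le_mul_of_nonneg_right this hl0.le]
      nlinarith
    linarith
  -- second range
  set e : ℝ := (16 * l + 39) / K + 3 / l with he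
  have he0 : 0 ≤ e := by positivity
  have hR2 : ∑ s ∈ Icc (s₁ + 2 * L) B, w s * a s ≤
      25 / 48 * (10003 / 10000) * (1 / 2 + 1 / 10 ^ 6) + 8 / 15 * (10001 / 10000)
        + 25 / 12 * Q ^ 2 * e * H := by
    have h1 := shift_sum a ha0 s₁ L B hs1
    have h2 : ∑ s ∈ Icc (s₁ + 2 * L) B, w s * a s ≤
        ∑ s ∈ Icc s₁ B, w s * ((∑ i ∈ range L, a (s + 2 * i)) / l) := by
      have h3 : ∑ s ∈ Icc s₁ B, w s * ((∑ i ∈ range L, a (s + 2 * i)) / l) =
          (∑ s ∈ Icc s₁ B, w s * ∑ i ∈ range L, a (s + 2 * i)) / l := by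
        rw [Finset.sum_div]
        apply Finset.sum_congr rfl
        intro s _
        rw [mul_div_assoc]
      rw [h3, le_div_iff₀ hl0, mul_comm]
      exact h1
    refine h2.trans ?_
    have h4 : ∀ s ∈ Icc s₁ B, w s * ((∑ i ∈ range L, a (s + 2 * i)) / l) ≤
        25 / 48 * (10003 / 10000) * (((s : ℝ) + 2 * l) / K ^ 2) + 8 / 15 * (10001 / 10000) / K
        + 25 / 12 * Q ^ 2 * e * w s := by
      intro s hs
      rw [mem_Icc] at hs
      have hsR : σ ≤ (s : ℝ) := by rw [hσdef]; exact_mod_cast hs.1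
      have hκ0 : 0 < ((s : ℝ) + 2 * l) / (K - 2 * l) := by
        apply div_pos
        · linarith
        · linarith
      have h5 := hII s (by omega) (by omega) (by omega)
        (4 / 5 * (((s : ℝ) + 2 * l) / (K - 2 * l))) (by positivity)
      have h6 := mul_le_mul_of_nonneg_left h5 (w_nonneg s)
      refine h6.trans ?_
      have h7 := per_s K l Q σ s (w s) e hQ hl1 hKl18 hσl hKσ hsR (w_nonneg s) (w_le s) he0
      rw [add_assoc (((((s : ℝ) + 2 * l) / (K - 2 * l)) ^ 4))]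
      exact h7
    refine (Finset.sum_le_sum h4).trans ?_
    rw [Finset.sum_add_distrib, Finset.sum_add_distrib, ← Finset.mul_sum, ← Finset.mul_sum,
      Finset.sum_const, nsmul_eq_mul, ← Finset.sum_div]
    have hcard : (((Icc s₁ B).card : ℕ) : ℝ) ≤ K := by
      have : (Icc s₁ B).card ≤ k := by rw [Nat.card_Icc]; omega
      rw [hKdef]
      exact_mod_cast this
    have hsum : ∑ s ∈ Icc s₁ B, ((s : ℝ) + 2 * l) ≤ (1 / 2 + 1 / 10 ^ 6) * K ^ 2 := by
      rw [Finset.sum_add_distrib, Finset.sum_const, nsmul_eq_mul]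
      have g1 : ∑ s ∈ Icc s₁ B, (s : ℝ) ≤ ∑ s ∈ range k, (s : ℝ) := by
        apply Finset.sum_le_sum_of_subset_of_nonneg
        · intro s hs
          rw [mem_Icc] at hs
          rw [mem_range]
          omega
        · intro s _ _; positivity
      have g2 : ∑ s ∈ range k, (s : ℝ) ≤ K ^ 2 / 2 := by
        have g3 := Finset.sum_range_id_mul_two k
        have g4 : (∑ i ∈ range k, i) * 2 ≤ k * k := by
          rw [g3]; exact Nat.mul_le_mul_left _ (by omega)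
        have g5 : (((∑ i ∈ range k, i : ℕ)) : ℝ) * 2 ≤ K * K := by rw [hKdef]; exact_mod_cast g4
        push_cast at g5
        nlinarith
      have g6 : (((Icc s₁ B).card : ℕ) : ℝ) * (2 * l) ≤ K * (2 * l) :=
        mul_le_mul_of_nonneg_right hcard (by positivity)
      nlinarith
    have t1 : 25 / 48 * (10003 / 10000) * ((∑ s ∈ Icc s₁ B, ((s : ℝ) + 2 * l)) / K ^ 2) ≤
        25 / 48 * (10003 / 10000) * (1 / 2 + 1 / 10 ^ 6) := by
      apply mul_le_mul_of_nonneg_left _ (by norm_num)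
      rw [div_le_iff₀ (by positivity)]
      exact hsum
    have t2 : (((Icc s₁ B).card : ℕ) : ℝ) * (8 / 15 * (10001 / 10000) / K) ≤
        8 / 15 * (10001 / 10000) := by
      calc (((Icc s₁ B).card : ℕ) : ℝ) * (8 / 15 * (10001 / 10000) / K)
          ≤ K * (8 / 15 * (10001 / 10000) / K) :=
            mul_le_mul_of_nonneg_right hcard (by positivity)
        _ = _ := by field_simp
    have t3 : 25 / 12 * Q ^ 2 * e * ∑ s ∈ Icc s₁ B, w s ≤ 25 / 12 * Q ^ 2 * e * H := by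
      apply mul_le_mul_of_nonneg_left _ (by positivity)
      apply hsub
      intro s hs
      rw [mem_Icc] at hs ⊢
      omega
    linarith
  have herr : 25 / 12 * Q ^ 2 * e * H ≤ 7 / 1000 := by
    have hHQ : H ≤ Q := by nlinarith
    have h1 : 25 / 12 * Q ^ 2 * e * H ≤ 25 / 12 * Q ^ 2 * e * Q :=
      mul_le_mul_of_nonneg_left hHQ (by positivity)
    refine h1.trans ?_
    have h2 : Q ^ 3 * (3 / l) = 3 / 1000 := by
      rw [hlR]; field_simp
    have h3 : Q ^ 3 * ((16 * l + 39) / K) ≤ 55 / 10 ^ 6 := by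
      rw [← mul_div_assoc, div_le_iff₀ hK0]
      have : Q ^ 3 * (16 * l + 39) ≤ Q ^ 3 * (55 * l) :=
        mul_le_mul_of_nonneg_left (by linarith) (by positivity)
      nlinarith
    calc 25 / 12 * Q ^ 2 * e * Q = 25 / 12 * (Q ^ 3 * ((16 * l + 39) / K) + Q ^ 3 * (3 / l)) := by
          rw [he]; ring
      _ ≤ 25 / 12 * (55 / 10 ^ 6 + 3 / 1000) := by
          rw [h2]
          apply mul_le_mul_of_nonneg_left _ (by norm_num)
          linarith
      _ ≤ 7 / 1000 := by norm_num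
  -- top range
  have hR3 : ∑ s ∈ Icc (B + 1) (k - 3), w s * a s ≤ 1 / 1000 := by
    have h1 : ∀ s ∈ Icc (B + 1) (k - 3), w s * a s ≤ 1 / (K - 2 * l) := by
      intro s hs
      rw [mem_Icc] at hs
      have h2 : w s * a s ≤ w s := by
        have := mul_le_mul_of_nonneg_left (ha1 s) (w_nonneg s)
        linarith
      refine h2.trans ((w_le s).trans ?_)
      apply one_div_le_one_div_of_le (by linarith)
      have h3 : k ≤ s + 3 + 2 * L := by omega
      have h4 : K ≤ (s : ℝ) + 3 + 2 * l := by rw [hKdef, hldef]; exact_mod_cast h3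
      linarith
    refine (Finset.sum_le_card_nsmul _ _ _ h1).trans ?_
    rw [nsmul_eq_mul, mul_one_div, div_le_iff₀ (by linarith)]
    have h5 : (Icc (B + 1) (k - 3)).card ≤ 2 * L + 1 := by
      rw [Nat.card_Icc]; omega
    have h6 : (((Icc (B + 1) (k - 3)).card : ℕ) : ℝ) ≤ 2 * l + 1 := by
      rw [hldef]; exact_mod_cast h5
    linarith
  have : (25 / 48 * (10003 / 10000) * (1 / 2 + 1 / 10 ^ 6) + 8 / 15 * (10001 / 10000) : ℝ)
      ≤ 794 / 1000 := by norm_num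
  linarith

end RP97
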