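import Pool.Agent.RP97.Final
import Pool.Agent.RP97.Graph

/-!
Rainbow paths with `k - 1` edges in graphs without 4-cycles, for large `k`.
-/

namespace RP97

open Finset

lemma sum_w_le (k : ℕ) : ∑ s ∈ Icc 1 k, w s ≤ 1 + Real.log k := by
  refine le_trans ?_ (harmonic_le_one_add_log k)
  rw [harmonic_eq_sum_Icc]
  push_cast
  apply Finset.sum_le_sum
  intro s hs
  rw [mem_Icc] at hs
  have hs1 : (1 : ℝ) ≤ s := by exact_mod_cast hs.1
  refine (w_le s).trans ?_
  rw [← one_div]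
  exact one_div_le_one_div_of_le (by linarith) (by linarith)

lemma exists_q (k : ℕ) (hk : 10 ^ 100 ≤ k) :
    ∃ q : ℕ, 10 ^ 4 * (1 + Real.log k) ^ 2 ≤ q ∧ 10 ^ 9 * q ^ 6 ≤ k := by
  have hkR : (10 : ℝ) ^ 100 ≤ k := by exact_mod_cast hk
  have hk0 : (0 : ℝ) ≤ k := by positivity
  set z : ℝ := (k : ℝ) ^ ((1 : ℝ) / 36) with hz
  have hz0 : 0 ≤ z := Real.rpow_nonneg hk0 _
  have hz36 : z ^ 36 = k := by
    rw [hz, ← Real.rpow_natCast, ← Real.rpow_mul hk0]
    norm_num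
  have hz500 : 500 ≤ z := by
    by_contra hcon
    push Not at hcon
    have h1 : z ^ 36 ≤ 500 ^ 36 := pow_le_pow_left₀ hz0 hcon.le 36
    rw [hz36] at h1
    have h2 : (500 : ℝ) ^ 36 < 10 ^ 100 := by norm_num
    linarith
  have hlog : Real.log k ≤ 36 * z := by
    have := Real.log_le_rpow_div hk0 (show (0 : ℝ) < 1 / 36 by norm_num)
    rw [← hz] at this
    linarith
  have hlog0 : 0 ≤ Real.log k := Real.log_natCast_nonneg k
  have h37 : (1 + Real.log k) ^ 2 ≤ (37 * z) ^ 2 :=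
    pow_le_pow_left₀ (by linarith) (by linarith) 2
  refine ⟨⌈10 ^ 4 * (1 + Real.log k) ^ 2⌉₊, Nat.le_ceil _, ?_⟩
  set q := ⌈10 ^ 4 * (1 + Real.log k) ^ 2⌉₊ with hq
  have hqle : (q : ℝ) ≤ 14000000 * z ^ 2 := by
    have h1 := Nat.ceil_lt_add_one (show (0 : ℝ) ≤ 10 ^ 4 * (1 + Real.log k) ^ 2 by positivity)
    rw [← hq] at h1
    nlinarith
  have hq6 : (q : ℝ) ^ 6 ≤ (14000000 * z ^ 2) ^ 6 := pow_le_pow_left₀ (by positivity) hqle 6
  have h24 : (500 : ℝ) ^ 24 ≤ z ^ 24 := pow_le_pow_left₀ (by norm_num) hz500 24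
  have hfin : (10 : ℝ) ^ 9 * (q : ℝ) ^ 6 ≤ k := by
    rw [← hz36]
    calc (10 : ℝ) ^ 9 * (q : ℝ) ^ 6 ≤ 10 ^ 9 * (14000000 * z ^ 2) ^ 6 :=
          mul_le_mul_of_nonneg_left hq6 (by norm_num)
      _ = (10 ^ 9 * 14000000 ^ 6) * z ^ 12 := by ring
      _ ≤ (500 : ℝ) ^ 24 * z ^ 12 := by
          apply mul_le_mul_of_nonneg_right (by norm_num) (by positivity)
      _ ≤ z ^ 24 * z ^ 12 := mul_le_mul_of_nonneg_right h24 (by positivity)
      _ = z ^ 36 := by ring
  exact_mod_cast hfin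

variable {V : Type*} {k : ℕ} (S : Sys V k) [Fintype V]

lemma exists_path_four_free [Nonempty V] (hC : S.C4) (hk : 10 ^ 100 ≤ k) :
    ∃ (x : V), ∃ l ∈ nd (∅ : Finset (Fin k)) (k - 1), (S.verts l x).Nodup := by
  classical
  by_contra hno
  push Not at hno
  have hk4 : 4 ≤ k := le_trans (by norm_num) hk
  have h1 := main_ineq S hC hk4 hno
  obtain ⟨q, hq1, hq2⟩ := exists_q k hk
  have hlog0 : 0 ≤ Real.log k := Real.log_natCast_nonneg k
  have hL1 : 1 ≤ 1000 * q ^ 3 := by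
    have hq0 : 0 < q := by
      have : (0 : ℝ) < q := lt_of_lt_of_le (by positivity) hq1
      exact_mod_cast this
    have : 0 < q ^ 3 := by positivity
    omega
  have h2 := final_lt k q (1000 * q ^ 3) (k / q) (1 + Real.log k) S.a (by linarith)
    (sum_w_le k) hq1 rfl hq2 rfl (a_nonneg S) (a_le_one S)
    (fun S₁ hS => region_one S hC S₁ hS)
    (fun s hs hsk hLk c hc => region_two S hC s (1000 * q ^ 3) hs hL1 hsk hLk c hc)
  linarith

section Bridge

variable (G : SimpleGraph V) (c : Sym2 V → Fin k) [DecidableRel G.Adj]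
    (hreg : G.IsRegularOfDegree k)
    (hc : ∀ u v w, G.Adj u v → G.Adj u w → c s(u, v) = c s(u, w) → v = w)

omit [Fintype V] in
lemma four_cycle {x y z y' : V} (h1 : G.Adj x y) (h2 : G.Adj y z) (h3 : G.Adj z y')
    (h4 : G.Adj y' x) (hxz : x ≠ z) (hyy : y ≠ y') :
    (SimpleGraph.Walk.cons h1 (SimpleGraph.Walk.cons h2 (SimpleGraph.Walk.cons h3
      (SimpleGraph.Walk.cons h4 SimpleGraph.Walk.nil)))).IsCycle := by
  rw [SimpleGraph.Walk.cons_isCycle_iff]
  constructor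
  · simp only [SimpleGraph.Walk.cons_isPath_iff, SimpleGraph.Walk.isPath_iff_eq_nil,
      SimpleGraph.Walk.support_cons, SimpleGraph.Walk.support_nil, List.mem_cons,
      List.not_mem_nil, or_false, not_or, true_and]
    exact ⟨⟨h4.ne, h3.ne, hxz.symm⟩, h2.ne, hyy, h1.ne'⟩
  · simp only [SimpleGraph.Walk.edges_cons, SimpleGraph.Walk.edges_nil, List.mem_cons,
      List.not_mem_nil, or_false, not_or, Sym2.eq_iff, not_and]
    refine ⟨⟨fun h => absurd h h1.ne, fun h => absurd h hxz⟩,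
      ⟨fun h => absurd h hxz, fun h _ => ?_⟩, ⟨fun h => absurd h h4.ne', fun _ h => hyy h⟩⟩
    exact h4.ne h.symm

lemma c4_of_graph (hfour : ∀ (u : V) (p : G.Walk u u), p.IsCycle → p.length ≠ 4) :
    (sysOf G c hreg hc).C4 := by
  intro x a b a' b' hab hab' h
  set S := sysOf G c hreg hc with hS
  have adj : ∀ d v, G.Adj v (S.nb d v) := fun d v => nb_adj G c hreg hc d v
  by_cases hy : S.nb a x = S.nb a' x
  · have ha := S.inj _ _ _ hy
    subst ha
    exact ⟨rfl, S.inj _ _ _ h⟩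
  · exfalso
    have hxz : x ≠ S.nb b (S.nb a x) := fun hx => hab (two_step S x a b hx.symm)
    have h3 : G.Adj (S.nb b (S.nb a x)) (S.nb a' x) := by
      rw [h]
      exact (adj b' (S.nb a' x)).symm
    have := four_cycle G (adj a x) (adj b (S.nb a x)) h3 (adj a' x).symm hxz hy
    exact hfour x _ this rfl

end Bridge

end RP97
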