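import Pool.Agent.RP97.Ev

/-!
Two near returns of a random rainbow walk: counting bounds.
-/

namespace RP97

open Finset

variable {V : Type*} {k : ℕ} (S : Sys V k) [Fintype V] [DecidableEq V]

lemma take_drop_disj {l : List (Fin k)} (h : l.Nodup) (m : ℕ) {c : Fin k}
    (h1 : c ∈ l.take m) (h2 : c ∈ l.drop m) : False := by
  rw [← List.take_append_drop m l] at h
  exact (List.nodup_append.1 h).2.2 c h1 c h2 rfl

omit [Fintype V] [DecidableEq V] in
lemma rel_ep {m : ℕ} {q : Loc V k} {p : V × List (Fin k)} (h : S.Rel m q p) :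
    S.ep p.2 p.1 = S.ep q.2.2.2 (S.nb q.2.2.1 (S.nb q.2.1 q.1)) := by
  obtain ⟨h1, h2, h3⟩ := h
  conv_lhs => rw [← List.take_append_drop m p.2]
  rw [ep_append, h3.2.2.2, h2, h1]

/-- Fibre bound for events with two near returns. -/
lemma fibre_pair (hC : S.C4) (t m u : ℕ) (ht : 2 ≤ t) (E : Finset (V × List (Fin k)))
    (hE : ∀ p ∈ E, p.2 ∈ nd (∅ : Finset (Fin k)) (t + m))
    (hA : ∀ p ∈ E, S.A p.1 p.2)
    (hU : ∀ p ∈ E, ∀ a b a' b', S.Cl p.1 (p.2.drop m) a b → S.Cl p.1 p.2 a' b' →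
      u ≤ (({a, b, a', b'} : Finset (Fin k)) ∪ (p.2.take m).toFinset).card)
    (q : Loc V k) [∀ p, Decidable (S.Rel m q p)] :
    (E.filter (fun p => S.Rel m q p)).card ≤ (k - u).descFactorial (t - 2) := by
  rcases (E.filter (fun p => S.Rel m q p)).eq_empty_or_nonempty with he | ⟨p₀, hp₀⟩
  · rw [he]; simp
  rw [mem_filter] at hp₀
  obtain ⟨hp₀E, hr₀⟩ := hp₀
  obtain ⟨a', b', hcl'⟩ := hA p₀ hp₀E
  refine fibre_le S hC t m u ht E hE q
    (({q.2.1, q.2.2.1, a', b'} : Finset (Fin k)) ∪ q.2.2.2.toFinset) ?_ ?_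
  · have := hU p₀ hp₀E _ _ _ _ hr₀.2.2 hcl'
    rw [hr₀.2.1] at this
    exact this
  · intro p hp hr c hc hmem
    have hnd := (mem_nd.1 (hE p hp)).2.1
    obtain ⟨a'', b'', hcl''⟩ := hA p hp
    have he : S.ep p₀.2 p₀.1 = S.ep p.2 p.1 := by rw [rel_ep S hr₀, rel_ep S hr]
    have hx : p₀.1 = p.1 := hr₀.1.symm.trans hr.1
    rw [hx] at he hcl'
    obtain ⟨e1, e2⟩ := Cl_unique S hC hcl' hcl'' he
    have hcl := hr.2.2
    simp only [mem_union, mem_insert, mem_singleton, List.mem_toFinset] at hmem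
    rcases hmem with (rfl | rfl | rfl | rfl) | hD
    · exact hcl.2.1 hc
    · exact hcl.2.2.1 hc
    · rw [e1] at hc
      exact hcl''.2.1 ((List.drop_sublist _ _).subset hc)
    · rw [e2] at hc
      exact hcl''.2.2.1 ((List.drop_sublist _ _).subset hc)
    · rw [← hr.2.1] at hD
      exact take_drop_disj hnd m hD hc

/-- Counting events with two near returns. -/
lemma cnt_pair_le (hC : S.C4) (t m u : ℕ) (ht : 2 ≤ t)
    (R : V → List (Fin k) → Fin k → Fin k → Fin k → Fin k → Prop) (L : Finset (Loc V k))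
    (hL : ∀ x, ∀ l ∈ nd (∅ : Finset (Fin k)) (t + m), ∀ a b a' b', S.Cl x (l.drop m) a b →
      S.Cl x l a' b' → R x l a b a' b' → (x, a, b, l.take m) ∈ L)
    (hu : ∀ x, ∀ l ∈ nd (∅ : Finset (Fin k)) (t + m), ∀ a b a' b', S.Cl x (l.drop m) a b →
      S.Cl x l a' b' → R x l a b a' b' →
      u ≤ (({a, b, a', b'} : Finset (Fin k)) ∪ (l.take m).toFinset).card) :
    cnt (fun x l => ∃ a b a' b', S.Cl x (l.drop m) a b ∧ S.Cl x l a' b' ∧ R x l a b a' b') (t + m)
      ≤ L.card * (k - u).descFactorial (t - 2) := by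
  classical
  unfold cnt
  apply local_count _ L (S.Rel m)
  · rintro ⟨x, l⟩ hp
    rw [mem_ev] at hp
    obtain ⟨hl, a, b, a', b', h1, h2, h3⟩ := hp
    exact ⟨(x, a, b, l.take m), hL x l hl a b a' b' h1 h2 h3, rfl, rfl, h1⟩
  · intro q _
    apply fibre_pair S hC t m u ht
    · rintro ⟨x, l⟩ hp
      exact (mem_ev.1 hp).1
    · rintro ⟨x, l⟩ hp
      obtain ⟨_, a, b, a', b', h1, h2, h3⟩ := mem_ev.1 hp
      exact ⟨a', b', h2⟩
    · rintro ⟨x, l⟩ hp a b a' b' g1 g2
      obtain ⟨hl, a₁, b₁, a₁', b₁', h1, h2, h3⟩ := mem_ev.1 hp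
      obtain ⟨rfl, rfl⟩ := Cl_unique S hC g1 h1 rfl
      obtain ⟨rfl, rfl⟩ := Cl_unique S hC g2 h2 rfl
      exact hu x l hl _ _ _ _ h1 h2 h3

/-- Local data, no restriction. -/
def L1 (V : Type*) [Fintype V] (k m : ℕ) : Finset (Loc V k) :=
  univ ×ˢ univ ×ˢ univ ×ˢ nd (∅ : Finset (Fin k)) m

omit [DecidableEq V] in
lemma card_L1 (m : ℕ) :
    (L1 V k m).card = Fintype.card V * (k * (k * k.descFactorial m)) := by
  simp [L1, card_nd]

omit [DecidableEq V] in
/-- Bound of a filtered set of local data through its slices. -/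
lemma card_filter_L1_le (m B : ℕ) (P : Loc V k → Prop) [DecidablePred P]
    (h : ∀ x a b, ((nd (∅ : Finset (Fin k)) m).filter (fun D => P (x, a, b, D))).card ≤ B) :
    ((L1 V k m).filter P).card ≤ Fintype.card V * (k * (k * B)) := by
  unfold L1
  rw [card_filter, sum_product]
  refine (Finset.sum_le_card_nsmul _ _ (k * (k * B)) ?_).trans (by simp)
  intro x _
  rw [sum_product]
  refine (Finset.sum_le_card_nsmul _ _ (k * B) ?_).trans (by simp)
  intro a _
  rw [sum_product]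
  refine (Finset.sum_le_card_nsmul _ _ B ?_).trans (by simp)
  intro b _
  rw [← card_filter]
  exact h x a b

omit [DecidableEq V] in
lemma card_L2 (m : ℕ) :
    ((L1 V k m).filter (fun q => q.2.1 ∈ q.2.2.2 ∨ q.2.2.1 ∈ q.2.2.2)).card
      ≤ Fintype.card V * (2 * m * k * k.descFactorial m) := by
  unfold L1
  rw [card_filter, sum_product]
  refine (Finset.sum_le_card_nsmul _ _ (2 * m * k * k.descFactorial m) ?_).trans (by simp)
  intro x _
  have h1 : ∀ D ∈ nd (∅ : Finset (Fin k)) m, (∑ a : Fin k, if a ∈ D then 1 else 0) = m := by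
    intro D hD
    obtain ⟨g1, g2, -⟩ := mem_nd.1 hD
    rw [← card_filter]
    have : (univ.filter (fun a : Fin k => a ∈ D)) = D.toFinset := by ext; simp
    rw [this, List.toFinset_card_of_nodup g2, g1]
  have h2 : (∑ D ∈ nd (∅ : Finset (Fin k)) m, ∑ a : Fin k, if a ∈ D then 1 else 0)
      = m * k.descFactorial m := by
    rw [Finset.sum_congr rfl h1, Finset.sum_const, card_nd]
    simp [mul_comm]
  calc (∑ y ∈ univ ×ˢ univ ×ˢ nd (∅ : Finset (Fin k)) m,
          if (x, y).2.1 ∈ (x, y).2.2.2 ∨ (x, y).2.2.1 ∈ (x, y).2.2.2 then 1 else 0)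
      ≤ ∑ y ∈ (univ : Finset (Fin k)) ×ˢ (univ : Finset (Fin k)) ×ˢ nd (∅ : Finset (Fin k)) m,
          ((if y.1 ∈ y.2.2 then 1 else 0) + (if y.2.1 ∈ y.2.2 then 1 else 0)) := by
        apply Finset.sum_le_sum
        rintro ⟨a, b, D⟩ _
        by_cases ha : a ∈ D <;> by_cases hb : b ∈ D <;> simp [ha, hb]
    _ = (∑ a : Fin k, ∑ _b : Fin k, ∑ D ∈ nd (∅ : Finset (Fin k)) m, if a ∈ D then 1 else 0)
        + (∑ _a : Fin k, ∑ b : Fin k, ∑ D ∈ nd (∅ : Finset (Fin k)) m, if b ∈ D then 1 else 0) := by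
        rw [Finset.sum_add_distrib]
        simp only [Finset.sum_product]
    _ = 2 * m * k * k.descFactorial m := by
        have e1 : (∑ a : Fin k, ∑ _b : Fin k, ∑ D ∈ nd (∅ : Finset (Fin k)) m,
            if a ∈ D then 1 else 0) = k * (m * k.descFactorial m) := by
          have : ∀ a : Fin k, (∑ _b : Fin k, ∑ D ∈ nd (∅ : Finset (Fin k)) m,
            if a ∈ D then 1 else 0) = k * ∑ D ∈ nd (∅ : Finset (Fin k)) m,
            if a ∈ D then 1 else 0 := by intro a; simp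
          rw [Finset.sum_congr rfl (fun a _ => this a), ← Finset.mul_sum, Finset.sum_comm, h2]
        have e2 : (∑ _a : Fin k, ∑ b : Fin k, ∑ D ∈ nd (∅ : Finset (Fin k)) m,
            if b ∈ D then 1 else 0) = k * (m * k.descFactorial m) := by
          rw [Finset.sum_const, Finset.sum_comm, h2]
          simp
        rw [e1, e2]; ring

/-- Local data whose path ends at one of two given places. -/
lemma card_L3 (m : ℕ) (hm : 1 ≤ m) [∀ q : Loc V k, Decidable
      (S.ep q.2.2.2 (S.nb q.2.2.1 (S.nb q.2.1 q.1)) = S.nb q.2.2.1 (S.nb q.2.1 q.1) ∨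
       S.ep q.2.2.2 (S.nb q.2.2.1 (S.nb q.2.1 q.1)) = S.nb q.2.1 (S.nb q.2.2.1 q.1))] :
    ((L1 V k m).filter (fun q =>
      S.ep q.2.2.2 (S.nb q.2.2.1 (S.nb q.2.1 q.1)) = S.nb q.2.2.1 (S.nb q.2.1 q.1) ∨
      S.ep q.2.2.2 (S.nb q.2.2.1 (S.nb q.2.1 q.1)) = S.nb q.2.1 (S.nb q.2.2.1 q.1))).card
      ≤ Fintype.card V * (k * (k * (2 * k.descFactorial (m - 1)))) := by
  classical
  apply card_filter_L1_le
  intro x a b
  have hz : ∀ z : V, ((nd (∅ : Finset (Fin k)) m).filter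
      (fun D => S.ep D (S.nb b (S.nb a x)) = z)).card ≤ k.descFactorial (m - 1) := by
    intro z
    have := card_end_le S (T := 1) (fun y z => one_step S y z) ∅ (S.nb b (S.nb a x)) z m hm
    simpa using this
  refine le_trans (card_le_card (t := (nd (∅ : Finset (Fin k)) m).filter
      (fun D => S.ep D (S.nb b (S.nb a x)) = S.nb b (S.nb a x)) ∪
      (nd (∅ : Finset (Fin k)) m).filter
      (fun D => S.ep D (S.nb b (S.nb a x)) = S.nb a (S.nb b x))) ?_) ?_
  · intro D hD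
    rw [mem_filter] at hD
    rw [mem_union, mem_filter, mem_filter]
    rcases hD.2 with h | h
    · exact Or.inl ⟨hD.1, h⟩
    · exact Or.inr ⟨hD.1, h⟩
  · refine (card_union_le _ _).trans ?_
    have h1 := hz (S.nb b (S.nb a x))
    have h2 := hz (S.nb a (S.nb b x))
    omega

/-- The ends of `D` allowed by a coincidence of closing colours. -/
def Sys.Near (S : Sys V k) (q : Loc V k) : Prop :=
  ∃ e, S.ep q.2.2.2 (S.nb q.2.2.1 (S.nb q.2.1 q.1)) = S.nb e (S.nb q.2.1 q.1) ∨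
    S.ep q.2.2.2 (S.nb q.2.2.1 (S.nb q.2.1 q.1)) = S.nb e (S.nb q.2.2.1 q.1) ∨
    S.ep q.2.2.2 (S.nb q.2.2.1 (S.nb q.2.1 q.1)) = S.nb q.2.1 (S.nb e q.1) ∨
    S.ep q.2.2.2 (S.nb q.2.2.1 (S.nb q.2.1 q.1)) = S.nb q.2.2.1 (S.nb e q.1)

lemma card_L4 (hC : S.C4) (m : ℕ) (hm : 2 ≤ m) [DecidablePred S.Near] :
    ((L1 V k m).filter S.Near).card
      ≤ Fintype.card V * (k * (k * (k * (4 * k.descFactorial (m - 2))))) := by
  classical
  apply card_filter_L1_le
  intro x a b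
  have hz : ∀ z : V, ((nd (∅ : Finset (Fin k)) m).filter
      (fun D => S.ep D (S.nb b (S.nb a x)) = z)).card ≤ k.descFactorial (m - 2) := by
    intro z
    have := card_end_le S (T := 1) (fun y z => two_steps S hC y z) ∅ (S.nb b (S.nb a x)) z m hm
    simpa using this
  refine le_trans (card_le_card (t := (univ : Finset (Fin k)).biUnion (fun e =>
      ((nd (∅ : Finset (Fin k)) m).filter
        (fun D => S.ep D (S.nb b (S.nb a x)) = S.nb e (S.nb a x)) ∪
      (nd (∅ : Finset (Fin k)) m).filter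
        (fun D => S.ep D (S.nb b (S.nb a x)) = S.nb e (S.nb b x))) ∪
      ((nd (∅ : Finset (Fin k)) m).filter
        (fun D => S.ep D (S.nb b (S.nb a x)) = S.nb a (S.nb e x)) ∪
      (nd (∅ : Finset (Fin k)) m).filter
        (fun D => S.ep D (S.nb b (S.nb a x)) = S.nb b (S.nb e x))))) ?_) ?_
  · intro D hD
    rw [mem_filter] at hD
    obtain ⟨hD1, e, he⟩ := hD
    rw [mem_biUnion]
    refine ⟨e, mem_univ _, ?_⟩
    simp only [mem_union, mem_filter]
    rcases he with h | h | h | h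
    · exact Or.inl (Or.inl ⟨hD1, h⟩)
    · exact Or.inl (Or.inr ⟨hD1, h⟩)
    · exact Or.inr (Or.inl ⟨hD1, h⟩)
    · exact Or.inr (Or.inr ⟨hD1, h⟩)
  · refine card_biUnion_le.trans ?_
    refine (Finset.sum_le_card_nsmul _ _ (4 * k.descFactorial (m - 2)) ?_).trans (by simp)
    intro e _
    refine (card_union_le _ _).trans ?_
    have h1 := hz (S.nb e (S.nb a x))
    have h2 := hz (S.nb e (S.nb b x))
    have h3 := hz (S.nb a (S.nb e x))
    have h4 := hz (S.nb b (S.nb e x))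
    have h5 := card_union_le ((nd (∅ : Finset (Fin k)) m).filter
        (fun D => S.ep D (S.nb b (S.nb a x)) = S.nb e (S.nb a x)))
      ((nd (∅ : Finset (Fin k)) m).filter
        (fun D => S.ep D (S.nb b (S.nb a x)) = S.nb e (S.nb b x)))
    have h6 := card_union_le ((nd (∅ : Finset (Fin k)) m).filter
        (fun D => S.ep D (S.nb b (S.nb a x)) = S.nb a (S.nb e x)))
      ((nd (∅ : Finset (Fin k)) m).filter
        (fun D => S.ep D (S.nb b (S.nb a x)) = S.nb b (S.nb e x)))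
    omega

end RP97
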