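import Pool.Agent.RP97.Expect

/-!
Moment inequalities for near returns in the two ranges of the number of unused colours.
-/

namespace RP97

open Finset

lemma pointwise_one (T : Finset ℕ) (v J : ℕ → ℝ) (hv : ∀ s ∈ T, 0 ≤ v s ∧ v s ≤ 1 / 6)
    (hJ : ∀ s, J s = 0 ∨ J s = 1) :
    ∑ s ∈ T, v s * J s ≤ 1 / 6 + 6 * ∑ s ∈ T, ∑ s' ∈ T,
      (if s = s' then 0 else v s * v s' * (J s * J s')) := by
  set N := ∑ s ∈ T, v s * J s with hN
  set X := ∑ s ∈ T, ∑ s' ∈ T, (if s = s' then 0 else v s * v s' * (J s * J s')) with hX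
  have hsq : N ^ 2 = ∑ s ∈ T, ∑ s' ∈ T, (v s * J s) * (v s' * J s') := by
    rw [sq, hN, Finset.sum_mul_sum]
  have hle : N ^ 2 ≤ N / 6 + X := by
    rw [hsq, hN, Finset.sum_div, hX, ← Finset.sum_add_distrib]
    apply Finset.sum_le_sum
    intro s hs
    have e : ∑ s' ∈ T, (v s * J s) * (v s' * J s') =
        (v s * J s) ^ 2 + ∑ s' ∈ T, (if s = s' then 0 else v s * v s' * (J s * J s')) := by
      have e1 : (v s * J s) ^ 2 = ∑ s' ∈ T, (if s = s' then (v s * J s) ^ 2 else 0) := by
        rw [Finset.sum_ite_eq]; simp [hs]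
      rw [e1, ← Finset.sum_add_distrib]
      apply Finset.sum_congr rfl
      intro s' _
      by_cases h : s = s'
      · subst h; simp; ring
      · simp [h]; ring
    rw [e]
    have h2 : (v s * J s) ^ 2 ≤ v s * J s / 6 := by
      obtain ⟨h3, h4⟩ := hv s hs
      rcases hJ s with h | h <;> rw [h]
      · simp
      · nlinarith
    linarith
  nlinarith [sq_nonneg (6 * N - 1)]

lemma amgm (y c : ℝ) (hy : 0 ≤ y) (hc : 0 < c) : y ≤ y ^ 3 / (3 * c ^ 2) + 2 * c / 3 := by
  have h : 0 ≤ (y - c) ^ 2 * (y + 2 * c) := by positivity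
  have e : y ^ 3 / (3 * c ^ 2) + 2 * c / 3 - y = ((y - c) ^ 2 * (y + 2 * c)) / (3 * c ^ 2) := by
    field_simp
    ring
  have h2 : 0 ≤ ((y - c) ^ 2 * (y + 2 * c)) / (3 * c ^ 2) := by positivity
  linarith

variable {V : Type*} {k : ℕ} (S : Sys V k) [Fintype V] [DecidableEq V]

omit [DecidableEq V] in
lemma a_nonneg (s : ℕ) : 0 ≤ S.a s := Pr_nonneg _ _

omit [DecidableEq V] in
lemma a_le_one (s : ℕ) : S.a s ≤ 1 := Pr_le_one _ _

variable [Nonempty V]

lemma region_one (hC : S.C4) (S₁ : ℕ) (hS : 4 * (S₁ + 2) ≤ k) :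
    ∑ s ∈ Icc 1 S₁, w s * S.a s ≤
      1 / 6 + 6 * ((4 * (S₁ : ℝ) + 13) / k) * (∑ s ∈ Icc 1 S₁, w s) ^ 2 := by
  have h1 : ∑ s ∈ Icc 1 S₁, w s * S.a s =
      Ex (fun x l => ∑ s ∈ Icc 1 S₁, w s * S.I s x l) (k - 3) := by
    rw [Ex_sum (Icc 1 S₁) (fun s x l => w s * S.I s x l)]
    apply Finset.sum_congr rfl
    intro s hs
    rw [mem_Icc] at hs
    rw [Ex_mul, Ex_I S s hs.1 (by omega)]
  rw [h1]
  have h2 : Ex (fun x l => ∑ s ∈ Icc 1 S₁, w s * S.I s x l) (k - 3) ≤
      Ex (fun x l => 1 / 6 + 6 * ∑ s ∈ Icc 1 S₁, ∑ s' ∈ Icc 1 S₁,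
        (if s = s' then 0 else w s * w s' * (S.I s x l * S.I s' x l))) (k - 3) := by
    apply Ex_mono
    intro x l
    exact pointwise_one _ w (fun s => S.I s x l) (fun s _ => ⟨w_nonneg s, w_le_sixth s⟩)
      (fun s => ind_or _)
  refine h2.trans ?_
  rw [Ex_add, Ex_const _ _ (by omega), Ex_mul, Ex_sum (Icc 1 S₁) (fun s x l =>
    ∑ s' ∈ Icc 1 S₁, (if s = s' then 0 else w s * w s' * (S.I s x l * S.I s' x l)))]
  have h3 : ∀ s ∈ Icc 1 S₁, Ex (fun x l =>
      ∑ s' ∈ Icc 1 S₁, (if s = s' then 0 else w s * w s' * (S.I s x l * S.I s' x l))) (k - 3)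
      ≤ ∑ s' ∈ Icc 1 S₁, w s * w s' * ((4 * (S₁ : ℝ) + 13) / k) := by
    intro s hs
    rw [Ex_sum (Icc 1 S₁) (fun s' x l =>
      (if s = s' then 0 else w s * w s' * (S.I s x l * S.I s' x l)))]
    apply Finset.sum_le_sum
    intro s' hs'
    rw [mem_Icc] at hs hs'
    have hw : 0 ≤ w s * w s' := mul_nonneg (w_nonneg s) (w_nonneg s')
    have hmono : ∀ r : ℕ, r ≤ S₁ → (4 * (r : ℝ) + 13) / k ≤ (4 * (S₁ : ℝ) + 13) / k := by
      intro r hr
      have : (r : ℝ) ≤ S₁ := by exact_mod_cast hr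
      gcongr
    rcases lt_trichotomy s s' with h | h | h
    · simp only [h.ne, if_false]
      rw [Ex_mul]
      apply mul_le_mul_of_nonneg_left _ hw
      have := Ex_II S hC s' s hs.1 h (by omega) (by omega)
      have e : (fun (x : V) (l : List (Fin k)) => S.I s' x l * S.I s x l) =
        (fun x l => S.I s x l * S.I s' x l) := by funext x l; ring
      rw [e] at this
      exact this.trans (hmono s' hs'.2)
    · subst h
      simp only [if_true]
      rw [Ex_const _ _ (by omega)]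
      positivity
    · simp only [h.ne', if_false]
      rw [Ex_mul]
      apply mul_le_mul_of_nonneg_left _ hw
      exact (Ex_II S hC s s' hs'.1 h (by omega) (by omega)).trans (hmono s hs.2)
  have h4 := Finset.sum_le_sum h3
  have h5 : ∑ s ∈ Icc 1 S₁, ∑ s' ∈ Icc 1 S₁, w s * w s' * ((4 * (S₁ : ℝ) + 13) / k) =
      ((4 * (S₁ : ℝ) + 13) / k) * (∑ s ∈ Icc 1 S₁, w s) ^ 2 := by
    rw [sq, Finset.sum_mul_sum, Finset.mul_sum]
    apply Finset.sum_congr rfl
    intro s _
    rw [Finset.mul_sum]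
    apply Finset.sum_congr rfl
    intro s' _
    ring
  rw [h5] at h4
  linarith

lemma region_two (hC : S.C4) (s L : ℕ) (hs : 1 ≤ s) (hL : 1 ≤ L) (hsk : s + 2 * L + 2 ≤ k)
    (hLk : 8 * L ≤ k) (c : ℝ) (hc : 0 < c) :
    (∑ i ∈ range L, S.a (s + 2 * i)) / L ≤
      ((((s : ℝ) + 2 * L) / (k - 2 * L)) ^ 4 + (16 * (L : ℝ) + 39) / k + 3 / L) / (3 * c ^ 2)
        + 2 * c / 3 := by
  set τ : ℝ := (((s : ℝ) + 2 * L) / (k - 2 * L)) ^ 4 + (16 * (L : ℝ) + 39) / k with hτ
  have hL0 : (0 : ℝ) < L := by exact_mod_cast hL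
  have hkL : (0 : ℝ) < (k : ℝ) - 2 * L := by
    have : (8 : ℝ) * L ≤ k := by exact_mod_cast hLk
    linarith
  have hkpos : (0 : ℝ) < k := by linarith
  have hτ0 : 0 ≤ τ := by positivity
  have h1 : ∑ i ∈ range L, S.a (s + 2 * i) =
      Ex (fun x l => ∑ i ∈ range L, S.I (s + 2 * i) x l) (k - 3) := by
    rw [Ex_sum (range L) (fun i x l => S.I (s + 2 * i) x l)]
    apply Finset.sum_congr rfl
    intro i hi
    rw [mem_range] at hi
    rw [Ex_I S _ (by omega) (by omega)]
  have h2 : Ex (fun x l => ∑ i ∈ range L, S.I (s + 2 * i) x l) (k - 3) ≤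
      Ex (fun x l => (1 / (3 * (c * L) ^ 2)) * (∑ i ∈ range L, S.I (s + 2 * i) x l) ^ 3
        + 2 * (c * L) / 3) (k - 3) := by
    apply Ex_mono
    intro x l
    have := amgm (∑ i ∈ range L, S.I (s + 2 * i) x l) (c * L)
      (Finset.sum_nonneg (fun i _ => ind_nonneg _)) (by positivity)
    rw [one_div_mul_eq_div]
    exact this
  rw [Ex_add, Ex_const _ _ (by omega), Ex_mul] at h2
  -- sorted triples
  have sorted : ∀ i j m, i < j → j < m → m < L →
      Ex (fun x l => S.I (s + 2 * i) x l * S.I (s + 2 * j) x l * S.I (s + 2 * m) x l) (k - 3)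
        ≤ τ := by
    intro i j m hij hjm hm
    have := Ex_III S hC (s + 2 * i) (s + 2 * j) (s + 2 * m) (by omega) (by omega) (by omega)
      (by omega) (by omega)
    refine this.trans ?_
    rw [hτ]
    have hi' : ((i : ℝ)) + 1 ≤ L := by
      have : i + 1 ≤ L := by omega
      exact_mod_cast this
    have hm' : ((m : ℝ)) + 1 ≤ L := by
      have : m + 1 ≤ L := by omega
      exact_mod_cast this
    have hi0 : (0 : ℝ) ≤ i := by positivity
    push_cast
    apply add_le_add
    · apply pow_le_pow_left₀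
      · apply div_nonneg
        · positivity
        · linarith
      · apply div_le_div₀
        · positivity
        · linarith
        · linarith
        · linarith
    · apply div_le_div_of_nonneg_right _ hkpos.le
      linarith
  have hdist : ∀ i j m, i < L → j < L → m < L → i ≠ j → j ≠ m → i ≠ m →
      Ex (fun x l => S.I (s + 2 * i) x l * S.I (s + 2 * j) x l * S.I (s + 2 * m) x l) (k - 3)
        ≤ τ := by
    intro i j m hi hj hm hij hjm him
    rcases lt_or_gt_of_ne hij with h | h <;> rcases lt_or_gt_of_ne hjm with h' | h' <;>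
      rcases lt_or_gt_of_ne him with h'' | h''
    · exact sorted i j m h h' hm
    · omega
    · refine (le_of_eq ?_).trans (sorted i m j h'' h' hj)
      congr 1; funext x l; ring
    · refine (le_of_eq ?_).trans (sorted m i j h'' h hj)
      congr 1; funext x l; ring
    · refine (le_of_eq ?_).trans (sorted j i m h h'' hm)
      congr 1; funext x l; ring
    · refine (le_of_eq ?_).trans (sorted j m i h' h'' hi)
      congr 1; funext x l; ring
    · omega
    · refine (le_of_eq ?_).trans (sorted m j i h' h hi)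
      congr 1; funext x l; ring
  have hall : ∀ i ∈ range L, ∀ j ∈ range L, ∀ m ∈ range L,
      Ex (fun x l => S.I (s + 2 * i) x l * S.I (s + 2 * j) x l * S.I (s + 2 * m) x l) (k - 3)
        ≤ τ + (if i = j then 1 else 0) + (if j = m then 1 else 0) + (if i = m then 1 else 0) := by
    intro i hi j hj m hm
    rw [mem_range] at hi hj hm
    have hone : Ex (fun x l => S.I (s + 2 * i) x l * S.I (s + 2 * j) x l *
        S.I (s + 2 * m) x l) (k - 3) ≤ 1 := by
      rw [← Ex_const (V := V) (k := k) 1 (k - 3) (by omega)]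
      apply Ex_mono
      intro x l
      unfold Sys.I
      rw [ind_and, ind_and]
      exact ind_le_one _
    by_cases h1 : i = j
    · simp only [h1, if_true]
      rw [h1] at hone
      have : (0 : ℝ) ≤ (if j = m then 1 else 0) := by split_ifs <;> norm_num
      linarith
    by_cases h2 : j = m
    · simp only [h2, if_true]
      rw [h2] at hone
      have : (0 : ℝ) ≤ (if i = m then 1 else 0) := by split_ifs <;> norm_num
      linarith
    by_cases h3 : i = m
    · simp only [h3, if_true]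
      rw [h3] at hone
      have q1 : (0 : ℝ) ≤ (if m = j then 1 else 0) := by split_ifs <;> norm_num
      have q2 : (0 : ℝ) ≤ (if j = m then 1 else 0) := by split_ifs <;> norm_num
      linarith
    · simp only [h1, h2, h3, if_false, add_zero]
      exact hdist i j m hi hj hm h1 h2 h3
  have hcube : Ex (fun x l => (∑ i ∈ range L, S.I (s + 2 * i) x l) ^ 3) (k - 3) ≤
      (L : ℝ) ^ 3 * τ + 3 * (L : ℝ) ^ 2 := by
    have e : (fun (x : V) (l : List (Fin k)) => (∑ i ∈ range L, S.I (s + 2 * i) x l) ^ 3) =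
        (fun x l => ∑ i ∈ range L, ∑ j ∈ range L, ∑ m ∈ range L,
          S.I (s + 2 * i) x l * S.I (s + 2 * j) x l * S.I (s + 2 * m) x l) := by
      funext x l
      rw [pow_succ, sq, Finset.sum_mul_sum, Finset.sum_mul]
      apply Finset.sum_congr rfl
      intro i _
      rw [Finset.sum_mul]
      apply Finset.sum_congr rfl
      intro j _
      rw [Finset.mul_sum]
    rw [e, Ex_sum (range L) (fun i x l => ∑ j ∈ range L, ∑ m ∈ range L,
          S.I (s + 2 * i) x l * S.I (s + 2 * j) x l * S.I (s + 2 * m) x l)]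
    have e2 : ∀ i ∈ range L, Ex (fun x l => ∑ j ∈ range L, ∑ m ∈ range L,
          S.I (s + 2 * i) x l * S.I (s + 2 * j) x l * S.I (s + 2 * m) x l) (k - 3) ≤
        ∑ j ∈ range L, ∑ m ∈ range L,
          (τ + (if i = j then 1 else 0) + (if j = m then 1 else 0) +
            (if i = m then 1 else 0)) := by
      intro i hi
      rw [Ex_sum (range L) (fun j x l => ∑ m ∈ range L,
          S.I (s + 2 * i) x l * S.I (s + 2 * j) x l * S.I (s + 2 * m) x l)]
      apply Finset.sum_le_sum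
      intro j hj
      rw [Ex_sum (range L) (fun m x l =>
          S.I (s + 2 * i) x l * S.I (s + 2 * j) x l * S.I (s + 2 * m) x l)]
      apply Finset.sum_le_sum
      intro m hm
      exact hall i hi j hj m hm
    refine (Finset.sum_le_sum e2).trans (le_of_eq ?_)
    have e3 : ∀ i ∈ range L, (∑ j ∈ range L, ∑ m ∈ range L,
          (τ + (if i = j then (1 : ℝ) else 0) + (if j = m then 1 else 0) +
            (if i = m then 1 else 0))) = (L : ℝ) ^ 2 * τ + 3 * L := by
      intro i hi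
      have hi' := mem_range.1 hi
      simp only [Finset.sum_add_distrib, Finset.sum_const, card_range, nsmul_eq_mul,
        Finset.sum_ite_eq, hi]
      have e4 : ∀ j ∈ range L, (if j ∈ range L then (1 : ℝ) else 0) = 1 := by
        intro j hj; simp [mem_range.1 hj]
      rw [Finset.sum_congr rfl e4]
      simp only [Finset.sum_const, card_range, nsmul_eq_mul, if_true, ← Finset.mul_sum,
        Finset.sum_ite_eq, hi]
      ring
    rw [Finset.sum_congr rfl e3, Finset.sum_const, card_range, nsmul_eq_mul]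
    ring
  rw [h1]
  have hcc : (0 : ℝ) < 1 / (3 * (c * L) ^ 2) := by positivity
  have h5 := mul_le_mul_of_nonneg_left hcube hcc.le
  have h6 : Ex (fun x l => ∑ i ∈ range L, S.I (s + 2 * i) x l) (k - 3) ≤
      1 / (3 * (c * L) ^ 2) * ((L : ℝ) ^ 3 * τ + 3 * (L : ℝ) ^ 2) + 2 * (c * L) / 3 := by
    linarith
  calc Ex (fun x l => ∑ i ∈ range L, S.I (s + 2 * i) x l) (k - 3) / L
      ≤ (1 / (3 * (c * L) ^ 2) * ((L : ℝ) ^ 3 * τ + 3 * (L : ℝ) ^ 2) + 2 * (c * L) / 3) / L :=
        div_le_div_of_nonneg_right h6 hL0.le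
    _ = (τ + 3 / L) / (3 * c ^ 2) + 2 * c / 3 := by
        field_simp

end RP97
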