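import Pool.Agent.RP97.Base

/-!
First moment criterion: few rainbow walks of length `r` between any two vertices give a rainbow
path using all but `h` colours.
-/

namespace RP97

open Finset

/-- `b m = m! / ((r-1) (m+r-1)!)`. -/
noncomputable def bq (r m : ℕ) : ℝ := (m.factorial : ℝ) / ((r - 1 : ℝ) * ((m + r - 1).factorial : ℝ))

/-- `g m = m! / ((r-1)(r-2) (m+r-2)!)`. -/
noncomputable def gq (r m : ℕ) : ℝ :=
  (m.factorial : ℝ) / ((r - 1 : ℝ) * (r - 2 : ℝ) * ((m + r - 2).factorial : ℝ))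

/-- `a m = m! / (m+r)!`. -/
noncomputable def aq (r m : ℕ) : ℝ := (m.factorial : ℝ) / ((m + r).factorial : ℝ)

lemma bq_sub (r m : ℕ) (hr : 3 ≤ r) : bq r m - bq r (m + 1) = aq r m := by
  obtain ⟨q, rfl⟩ : ∃ q, r = q + 3 := ⟨r - 3, by omega⟩
  have e1 : m + (q + 3) - 1 = m + q + 2 := by omega
  have e2 : m + 1 + (q + 3) - 1 = m + q + 3 := by omega
  have e3 : m + (q + 3) = m + q + 3 := by omega
  rw [bq, bq, aq, e1, e2, e3]
  have f1 : ((m + q + 3).factorial : ℝ) = (m + q + 3) * (m + q + 2).factorial := by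
    rw [show m + q + 3 = (m + q + 2) + 1 by ring, Nat.factorial_succ]; push_cast; ring
  have f2 : ((m + 1).factorial : ℝ) = (m + 1) * m.factorial := by
    rw [Nat.factorial_succ]; push_cast; ring
  rw [f1, f2]
  have h1 : ((m + q + 2).factorial : ℝ) ≠ 0 := by positivity
  have h2 : ((q + 3 : ℕ) : ℝ) - 1 ≠ 0 := by
    rw [show ((q + 3 : ℕ) : ℝ) - 1 = (q : ℝ) + 2 by push_cast; ring]; positivity
  have h3 : (m + q + 3 : ℝ) ≠ 0 := by positivity
  field_simp
  push_cast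
  ring

lemma gq_sub (r m : ℕ) (hr : 3 ≤ r) : gq r m - gq r (m + 1) = bq r m := by
  obtain ⟨q, rfl⟩ : ∃ q, r = q + 3 := ⟨r - 3, by omega⟩
  have e1 : m + (q + 3) - 2 = m + q + 1 := by omega
  have e2 : m + 1 + (q + 3) - 2 = m + q + 2 := by omega
  have e3 : m + (q + 3) - 1 = m + q + 2 := by omega
  rw [gq, gq, bq, e1, e2, e3]
  have f1 : ((m + q + 2).factorial : ℝ) = (m + q + 2) * (m + q + 1).factorial := by
    rw [show m + q + 2 = (m + q + 1) + 1 by ring, Nat.factorial_succ]; push_cast; ring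
  have f2 : ((m + 1).factorial : ℝ) = (m + 1) * m.factorial := by
    rw [Nat.factorial_succ]; push_cast; ring
  rw [f1, f2]
  have h1 : ((m + q + 1).factorial : ℝ) ≠ 0 := by positivity
  have h2 : ((q + 3 : ℕ) : ℝ) - 1 ≠ 0 := by
    rw [show ((q + 3 : ℕ) : ℝ) - 1 = (q : ℝ) + 2 by push_cast; ring]; positivity
  have h3 : (m + q + 2 : ℝ) ≠ 0 := by positivity
  have h4 : ((q + 3 : ℕ) : ℝ) - 2 ≠ 0 := by
    rw [show ((q + 3 : ℕ) : ℝ) - 2 = (q : ℝ) + 1 by push_cast; ring]; positivity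
  field_simp
  push_cast
  ring

lemma gq_pos (r m : ℕ) (hr : 3 ≤ r) : 0 < gq r m := by
  obtain ⟨q, rfl⟩ : ∃ q, r = q + 3 := ⟨r - 3, by omega⟩
  have h2 : (0 : ℝ) < ((q + 3 : ℕ) : ℝ) - 1 := by
    rw [show ((q + 3 : ℕ) : ℝ) - 1 = (q : ℝ) + 2 by push_cast; ring]; positivity
  have h4 : (0 : ℝ) < ((q + 3 : ℕ) : ℝ) - 2 := by
    rw [show ((q + 3 : ℕ) : ℝ) - 2 = (q : ℝ) + 1 by push_cast; ring]; positivity
  rw [gq]
  positivity

lemma bq_nonneg (r m : ℕ) (hr : 3 ≤ r) : 0 ≤ bq r m := by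
  obtain ⟨q, rfl⟩ : ∃ q, r = q + 3 := ⟨r - 3, by omega⟩
  have h2 : (0 : ℝ) < ((q + 3 : ℕ) : ℝ) - 1 := by
    rw [show ((q + 3 : ℕ) : ℝ) - 1 = (q : ℝ) + 2 by push_cast; ring]; positivity
  rw [bq]
  positivity

/-- Summation by parts. -/
lemma sum_aq (r h j : ℕ) (hr : 3 ≤ r) :
    ∑ i ∈ range j, ((i : ℝ) + 1) * aq r (h + i) = gq r h - gq r (h + j) - j * bq r (h + j) := by
  induction j with
  | zero => simp
  | succ j ih =>
    rw [sum_range_succ, ih, ← bq_sub r (h + j) hr]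
    have e := gq_sub r (h + j) hr
    rw [show h + (j + 1) = h + j + 1 by ring]
    push_cast
    linear_combination (-1 : ℝ) * e

lemma sum_aq_lt (r h j : ℕ) (hr : 3 ≤ r) :
    ∑ i ∈ range j, ((i : ℝ) + 1) * aq r (h + i) < gq r h := by
  rw [sum_aq r h j hr]
  have h1 := gq_pos r (h + j) hr
  have h2 := bq_nonneg r (h + j) hr
  have h3 : (0 : ℝ) ≤ j * bq r (h + j) := by positivity
  linarith

lemma desc_ratio {k r ℓ K : ℕ} (hrℓ : r ≤ ℓ) (hℓK : ℓ ≤ K) (hK : K ≤ k) :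
    ((k.descFactorial (ℓ - r) : ℕ) : ℝ) * ((k - ℓ).descFactorial (K - ℓ) : ℕ)
      = aq r (k - ℓ) * (k.descFactorial K : ℕ) := by
  have h1 : (k.descFactorial (ℓ - r) : ℝ) = k.factorial / (k - ℓ + r).factorial := by
    rw [eq_div_iff (by positivity)]
    have := Nat.factorial_mul_descFactorial (n := k) (k := ℓ - r) (by omega)
    rw [show k - (ℓ - r) = k - ℓ + r by omega] at this
    rw [mul_comm]
    exact_mod_cast this
  have h2 : ((k - ℓ).descFactorial (K - ℓ) : ℝ) = (k - ℓ).factorial / (k - K).factorial := by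
    rw [eq_div_iff (by positivity)]
    have := Nat.factorial_mul_descFactorial (n := k - ℓ) (k := K - ℓ) (by omega)
    rw [show k - ℓ - (K - ℓ) = k - K by omega] at this
    rw [mul_comm]
    exact_mod_cast this
  have h3 : (k.descFactorial K : ℝ) = k.factorial / (k - K).factorial := by
    rw [eq_div_iff (by positivity)]
    have := Nat.factorial_mul_descFactorial (n := k) (k := K) hK
    rw [mul_comm]
    exact_mod_cast this
  rw [h1, h2, h3, aq]
  field_simp

variable {V : Type*} [Fintype V] [DecidableEq V] {k : ℕ} (S : Sys V k)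

lemma card_closed_le {r T : ℕ}
    (hT : ∀ y z : V, ((nd (∅ : Finset (Fin k)) r).filter (fun p => S.ep p y = z)).card ≤ T)
    (ℓ : ℕ) (hℓ : r ≤ ℓ) :
    (S.closed ℓ).card ≤ Fintype.card V * (T * k.descFactorial (ℓ - r)) := by
  have : S.closed ℓ = univ.biUnion (fun x : V =>
      ((nd (∅ : Finset (Fin k)) ℓ).filter (fun l => S.ep l x = x)).image (fun l => (x, l))) := by
    ext ⟨x, l⟩
    simp [Sys.closed]
  rw [this]
  refine card_biUnion_le.trans ?_
  refine (Finset.sum_le_card_nsmul _ _ (T * k.descFactorial (ℓ - r)) ?_).trans (by simp)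
  intro x _
  refine card_image_le.trans ?_
  have := card_end_le S hT ∅ x x ℓ hℓ
  simpa using this

/-- First moment criterion. -/
theorem exists_path [Nonempty V] {r T h : ℕ} (hr : 3 ≤ r) (hh : h ≤ k)
    (hT : ∀ y z : V, ((nd (∅ : Finset (Fin k)) r).filter (fun p => S.ep p y = z)).card ≤ T)
    (hshort : ∀ ℓ, 1 ≤ ℓ → ℓ < r → S.closed ℓ = ∅)
    (hTh : T * h.factorial ≤ (r - 1) * (r - 2) * (r + h - 2).factorial) :
    ∃ x : V, ∃ l ∈ nd (∅ : Finset (Fin k)) (k - h), (S.verts l x).Nodup := by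
  by_contra hcon
  push Not at hcon
  have hmain := main_count S (k - h) hcon
  set K := k - h with hKdef
  set n := Fintype.card V with hn
  have hn0 : 0 < n := Fintype.card_pos
  have hD : (0 : ℝ) < (k.descFactorial K : ℕ) := by
    exact_mod_cast Nat.descFactorial_pos.2 (by omega)
  have hmain' : (n : ℝ) * (k.descFactorial K : ℕ) ≤
      ∑ ℓ ∈ Icc 1 K, ((K - ℓ + 1 : ℕ) : ℝ) *
        (((S.closed ℓ).card : ℝ) * ((k - ℓ).descFactorial (K - ℓ) : ℕ)) := by
    exact_mod_cast hmain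
  have hsum : ∑ ℓ ∈ Icc 1 K, ((K - ℓ + 1 : ℕ) : ℝ) *
        (((S.closed ℓ).card : ℝ) * ((k - ℓ).descFactorial (K - ℓ) : ℕ))
      ≤ ∑ ℓ ∈ Icc 1 K, ((K - ℓ + 1 : ℕ) : ℝ) *
        ((n : ℝ) * (k.descFactorial K : ℕ) * (T * aq r (k - ℓ))) := by
    apply Finset.sum_le_sum
    intro ℓ hℓ
    rw [mem_Icc] at hℓ
    apply mul_le_mul_of_nonneg_left _ (by positivity)
    rcases lt_or_ge ℓ r with hlt | hge
    · rw [hshort ℓ hℓ.1 hlt]
      simp only [card_empty, Nat.cast_zero, zero_mul]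
      have : 0 ≤ aq r (k - ℓ) := by rw [aq]; positivity
      positivity
    · have h1 := card_closed_le S hT ℓ hge
      have h2 := desc_ratio (k := k) hge hℓ.2 (by omega : K ≤ k)
      have h1' : ((S.closed ℓ).card : ℝ) ≤ n * (T * (k.descFactorial (ℓ - r) : ℕ)) := by
        exact_mod_cast h1
      calc ((S.closed ℓ).card : ℝ) * ((k - ℓ).descFactorial (K - ℓ) : ℕ)
          ≤ n * (T * (k.descFactorial (ℓ - r) : ℕ)) * ((k - ℓ).descFactorial (K - ℓ) : ℕ) :=
            mul_le_mul_of_nonneg_right h1' (by positivity)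
        _ = n * T * (((k.descFactorial (ℓ - r) : ℕ) : ℝ) *
              ((k - ℓ).descFactorial (K - ℓ) : ℕ)) := by ring
        _ = n * T * (aq r (k - ℓ) * (k.descFactorial K : ℕ)) := by rw [h2]
        _ = _ := by ring
  have hre : ∑ ℓ ∈ Icc 1 K, ((K - ℓ + 1 : ℕ) : ℝ) *
        ((n : ℝ) * (k.descFactorial K : ℕ) * (T * aq r (k - ℓ)))
      = (n : ℝ) * (k.descFactorial K : ℕ) * (T *
        ∑ i ∈ range K, ((i : ℝ) + 1) * aq r (h + i)) := by
    rw [Finset.mul_sum, Finset.mul_sum]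
    apply Finset.sum_nbij' (fun ℓ => K - ℓ) (fun i => K - i)
    · intro ℓ hℓ; rw [mem_Icc] at hℓ; rw [mem_range]; omega
    · intro i hi; rw [mem_range] at hi; rw [mem_Icc]; omega
    · intro ℓ hℓ; rw [mem_Icc] at hℓ; omega
    · intro i hi; rw [mem_range] at hi; omega
    · intro ℓ hℓ
      rw [mem_Icc] at hℓ
      rw [show h + (K - ℓ) = k - ℓ by omega]
      push_cast
      ring
  have hlt := sum_aq_lt r h K hr
  have hTg : (T : ℝ) * gq r h ≤ 1 := by
    rw [gq]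
    have h1 : (0 : ℝ) < (r : ℝ) - 1 := by
      have : (3 : ℝ) ≤ r := by exact_mod_cast hr
      linarith
    have h2 : (0 : ℝ) < (r : ℝ) - 2 := by
      have : (3 : ℝ) ≤ r := by exact_mod_cast hr
      linarith
    rw [← mul_div_assoc, div_le_one (by positivity)]
    have h3 : ((T * h.factorial : ℕ) : ℝ) ≤ ((r - 1) * (r - 2) * (r + h - 2).factorial : ℕ) := by
      exact_mod_cast hTh
    rw [show r + h - 2 = h + r - 2 by omega] at h3
    rw [Nat.cast_mul, Nat.cast_mul, Nat.cast_mul, Nat.cast_sub (by omega),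
      Nat.cast_sub (by omega)] at h3
    exact_mod_cast h3
  have hfin : (n : ℝ) * (k.descFactorial K : ℕ) * (T *
        ∑ i ∈ range K, ((i : ℝ) + 1) * aq r (h + i)) < (n : ℝ) * (k.descFactorial K : ℕ) := by
    have hnD : (0 : ℝ) < (n : ℝ) * (k.descFactorial K : ℕ) := by positivity
    rcases Nat.eq_zero_or_pos T with hT0 | hTpos
    · subst hT0; simpa using hnD
    · have hTp : (0 : ℝ) < T := by exact_mod_cast hTpos
      have : (T : ℝ) * ∑ i ∈ range K, ((i : ℝ) + 1) * aq r (h + i) < 1 :=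
        lt_of_lt_of_le (mul_lt_mul_of_pos_left hlt hTp) hTg
      calc _ < (n : ℝ) * (k.descFactorial K : ℕ) * 1 := mul_lt_mul_of_pos_left this hnD
        _ = _ := mul_one _
  linarith [hmain', hsum, hre, hfin]

end RP97
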