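import Pool.Agent.RP97.Bounds

/-!
Three near returns of a random rainbow walk.
-/

namespace RP97

open Finset

variable {V : Type*} {k : ℕ} (S : Sys V k) [Fintype V] [DecidableEq V]

lemma desc_step (N q j : ℕ) :
    (N - (j + 1)).descFactorial q * N ≤ (N - j).descFactorial q * (N - q) := by
  rcases Nat.lt_or_ge j N with h | h
  · have h1 := desc_pred (N - j) q
    have h2 : N - j - 1 = N - (j + 1) := by omega
    rw [h2] at h1
    have hpos : 0 < N - j := by omega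
    apply Nat.le_of_mul_le_mul_right _ hpos
    calc (N - (j + 1)).descFactorial q * N * (N - j)
        = ((N - (j + 1)).descFactorial q * (N - j)) * N := by ring
      _ = ((N - j).descFactorial q * (N - j - q)) * N := by rw [h1]
      _ = (N - j).descFactorial q * ((N - j - q) * N) := by ring
      _ ≤ (N - j).descFactorial q * ((N - q) * (N - j)) := by
          apply Nat.mul_le_mul_left
          rcases Nat.lt_or_ge (N - j) q with hq | hq
          · rw [Nat.sub_eq_zero_of_le hq.le]; simp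
          · obtain ⟨M, hM⟩ : ∃ M, N = M + j := ⟨N - j, by omega⟩
            obtain ⟨R, hR⟩ : ∃ R, M = R + q := ⟨M - q, by omega⟩
            subst hR; subst hM
            have e1 : R + q + j - j - q = R := by omega
            have e2 : R + q + j - q = R + j := by omega
            have e3 : R + q + j - j = R + q := by omega
            rw [e1, e2, e3]
            nlinarith
      _ = _ := by ring
  · have e1 : N - (j + 1) = 0 := by omega
    have e2 : N - j = 0 := by omega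
    rw [e1, e2]
    rcases q with _ | q
    · simp
    · simp

lemma desc_four (N q : ℕ) :
    (N - 4).descFactorial q * N ^ 4 ≤ N.descFactorial q * (N - q) ^ 4 := by
  have h0 := desc_step N q 0
  have h1 := desc_step N q 1
  have h2 := desc_step N q 2
  have h3 := desc_step N q 3
  simp only [Nat.sub_zero, zero_add, Nat.reduceAdd] at h0 h1 h2 h3
  calc (N - 4).descFactorial q * N ^ 4 = ((N - 4).descFactorial q * N) * N ^ 3 := by ring
    _ ≤ ((N - 3).descFactorial q * (N - q)) * N ^ 3 := Nat.mul_le_mul_right _ h3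
    _ = ((N - 3).descFactorial q * N) * ((N - q) * N ^ 2) := by ring
    _ ≤ ((N - 2).descFactorial q * (N - q)) * ((N - q) * N ^ 2) := Nat.mul_le_mul_right _ h2
    _ = ((N - 2).descFactorial q * N) * ((N - q) ^ 2 * N) := by ring
    _ ≤ ((N - 1).descFactorial q * (N - q)) * ((N - q) ^ 2 * N) := Nat.mul_le_mul_right _ h1
    _ = ((N - 1).descFactorial q * N) * (N - q) ^ 3 := by ring
    _ ≤ (N.descFactorial q * (N - q)) * (N - q) ^ 3 := Nat.mul_le_mul_right _ h0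
    _ = _ := by ring

/-- Local data with all colours different. -/
def L5 (V : Type*) [Fintype V] (k m : ℕ) : Finset (Loc V k) :=
  (L1 V k m).filter (fun q => q.2.1 ≠ q.2.2.1 ∧ q.2.1 ∉ q.2.2.2 ∧ q.2.2.1 ∉ q.2.2.2)

omit [DecidableEq V] in
lemma card_L5 (m : ℕ) : (L5 V k m).card ≤ Fintype.card V * k.descFactorial (m + 2) := by
  have h0 : (univ ×ˢ nd (∅ : Finset (Fin k)) (m + 2) : Finset (V × List (Fin k))).card
      = Fintype.card V * k.descFactorial (m + 2) := by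
    rw [card_product, card_nd]; simp
  rw [← h0]
  apply Finset.card_le_card_of_injOn (fun q : Loc V k => (q.1, q.2.1 :: q.2.2.1 :: q.2.2.2))
  · rintro ⟨x, a, b, D⟩ hq
    rw [mem_coe, L5, mem_filter] at hq
    obtain ⟨hq1, h1, h2, h3⟩ := hq
    simp only [L1, mem_product, mem_univ, true_and] at hq1
    obtain ⟨g1, g2, -⟩ := mem_nd.1 hq1
    simp only [coe_product, Set.mem_prod, mem_coe, mem_univ, true_and]
    refine mem_nd.2 ⟨by simp [g1], ?_, by simp⟩
    simp only [List.nodup_cons, List.mem_cons, not_or]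
    exact ⟨⟨h1, h2⟩, h3, g2⟩
  · rintro ⟨x, a, b, D⟩ _ ⟨x', a', b', D'⟩ _ h
    simp only [Prod.mk.injEq, List.cons.injEq] at h
    obtain ⟨rfl, rfl, rfl, rfl⟩ := h
    rfl

/-- Three near returns without coincidences of the closing colours. -/
def Sys.T3 (S : Sys V k) (m m₂ : ℕ) (x : V) (l : List (Fin k)) : Prop :=
  ∃ a₁ b₁ a₂ b₂ a₃ b₃, S.Cl x (l.drop m) a₁ b₁ ∧ S.Cl x (l.drop m₂) a₂ b₂ ∧ S.Cl x l a₃ b₃ ∧
    ({a₁, b₁, a₂, b₂, a₃, b₃} : Finset (Fin k)).card = 6 ∧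
    ∀ c ∈ ({a₁, b₁, a₂, b₂, a₃, b₃} : Finset (Fin k)), c ∉ l.take m

lemma cnt_T3 (hC : S.C4) (t m m₂ : ℕ) (ht : 2 ≤ t) (hm : m₂ ≤ m) :
    cnt (S.T3 m m₂) (t + m) ≤
      Fintype.card V * (k.descFactorial (m + 2) * (k - (m + 6)).descFactorial (t - 2)) := by
  classical
  unfold cnt
  refine (local_count _ (L5 V k m) (S.Rel m) ((k - (m + 6)).descFactorial (t - 2)) ?_ ?_).trans ?_
  · rintro ⟨x, l⟩ hp
    rw [mem_ev] at hp
    obtain ⟨hl, a₁, b₁, a₂, b₂, a₃, b₃, h1, h2, h3, h4, h5⟩ := hp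
    refine ⟨(x, a₁, b₁, l.take m), ?_, rfl, rfl, h1⟩
    rw [L5, mem_filter]
    refine ⟨?_, h1.1, h5 a₁ (by simp), h5 b₁ (by simp)⟩
    simp only [L1, mem_product, mem_univ, true_and]
    exact take_mem hl
  · intro q _
    rcases ((ev (S.T3 m m₂) (t + m)).filter (fun p => S.Rel m q p)).eq_empty_or_nonempty
      with he | ⟨p₀, hp₀⟩
    · rw [he]; simp
    rw [mem_filter, mem_ev] at hp₀
    obtain ⟨⟨hl₀, a₁, b₁, a₂, b₂, a₃, b₃, h1, h2, h3, h4, h5⟩, hr₀⟩ := hp₀
    refine fibre_le S hC t m (m + 6) ht _ (fun p hp => (mem_ev.1 hp).1) q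
      (({a₁, b₁, a₂, b₂, a₃, b₃} : Finset (Fin k)) ∪ (p₀.2.take m).toFinset) ?_ ?_
    · have := card_U_ge hl₀ ({a₁, b₁, a₂, b₂, a₃, b₃} : Finset (Fin k))
        {a₁, b₁, a₂, b₂, a₃, b₃} (Finset.Subset.refl _) h5
      rw [h4] at this
      exact this
    · intro p hp hr c hc hmem
      rw [mem_ev] at hp
      obtain ⟨hl, a₁', b₁', a₂', b₂', a₃', b₃', g1, g2, g3, g4, g5⟩ := hp
      have hnd := (mem_nd.1 hl).2.1
      have hx : p₀.1 = p.1 := hr₀.1.symm.trans hr.1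
      have htk : p₀.2.take m = p.2.take m := hr₀.2.1.trans hr.2.1.symm
      -- end of the first part
      have e1 : S.ep (p₀.2.drop m) p₀.1 = S.ep (p.2.drop m) p.1 := by
        rw [hr₀.2.2.2.2.2, hr.2.2.2.2.2, hx]
      have e3 : S.ep p₀.2 p₀.1 = S.ep p.2 p.1 := by rw [rel_ep S hr₀, rel_ep S hr]
      have e2 : S.ep (p₀.2.drop m₂) p₀.1 = S.ep (p.2.drop m₂) p.1 := by
        have hs : ∀ l : List (Fin k), l.drop m₂ = (l.take m).drop m₂ ++ l.drop m := by
          intro l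
          conv_lhs => rw [← List.take_append_drop m l]
          rw [List.drop_append]
          congr 1
          rw [List.length_take]
          rcases Nat.le_total m l.length with hml | hml
          · rw [Nat.min_eq_left hml, Nat.sub_eq_zero_of_le hm]; simp
          · rw [List.drop_eq_nil_of_le hml]; simp
        rw [hs p₀.2, hs p.2, ep_append, ep_append, e1, htk]
      rw [hx] at h1 h2 h3 e1 e2 e3
      obtain ⟨c1, c2⟩ := Cl_unique S hC h1 g1 e1
      obtain ⟨c3, c4⟩ := Cl_unique S hC h2 g2 e2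
      obtain ⟨c5, c6⟩ := Cl_unique S hC h3 g3 e3
      subst c1 c2 c3 c4 c5 c6
      have hsub : ∀ c ∈ p.2.drop m, c ∈ p.2.drop m₂ := by
        intro c hc
        have : p.2.drop m = (p.2.drop m₂).drop (m - m₂) := by
          rw [List.drop_drop]; congr 1; omega
        rw [this] at hc
        exact (List.drop_sublist _ _).subset hc
      simp only [mem_union, mem_insert, mem_singleton, List.mem_toFinset] at hmem
      rcases hmem with (rfl | rfl | rfl | rfl | rfl | rfl) | hD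
      · exact g1.2.1 hc
      · exact g1.2.2.1 hc
      · exact g2.2.1 (hsub _ hc)
      · exact g2.2.2.1 (hsub _ hc)
      · exact g3.2.1 ((List.drop_sublist _ _).subset hc)
      · exact g3.2.2.1 ((List.drop_sublist _ _).subset hc)
      · rw [htk] at hD
        exact take_drop_disj hnd m hD hc
  · refine (Nat.mul_le_mul_right _ (card_L5 (V := V) m)).trans (le_of_eq ?_)
    ring

variable [Nonempty V]

lemma Pr_T3 (hC : S.C4) (t m m₂ : ℕ) (ht : 2 ≤ t) (hm : m₂ ≤ m) (htm : t + m ≤ k)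
    (hk : m + 2 < k) :
    Pr (S.T3 m m₂) (t + m) ≤ (((k : ℝ) - m - t) / (k - m - 2)) ^ 4 := by
  apply Pr_le_of_cnt htm (cnt_T3 S hC t m m₂ ht hm)
  have e : k.descFactorial (t + m) = k.descFactorial (m + 2) *
      (k - (m + 2)).descFactorial (t - 2) := by
    have := Nat.descFactorial_mul_descFactorial (n := k) (show m + 2 ≤ t + m by omega)
    rw [← this, mul_comm]
    congr 2
    omega
  rw [e]
  have h4 := desc_four (k - (m + 2)) (t - 2)
  have e6 : k - (m + 2) - 4 = k - (m + 6) := by omega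
  have e7 : k - (m + 2) - (t - 2) = k - m - t := by omega
  rw [e6, e7] at h4
  have c1 : ((k - (m + 2) : ℕ) : ℝ) = (k : ℝ) - m - 2 := by
    rw [Nat.cast_sub (by omega)]; push_cast; ring
  have c2 : ((k - m - t : ℕ) : ℝ) = (k : ℝ) - m - t := by
    rw [Nat.cast_sub (by omega), Nat.cast_sub (by omega)]
  have h4' : ((k - (m + 6)).descFactorial (t - 2) : ℝ) * ((k : ℝ) - m - 2) ^ 4 ≤
      ((k - (m + 2)).descFactorial (t - 2) : ℝ) * ((k : ℝ) - m - t) ^ 4 := by
    rw [← c1, ← c2]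
    exact_mod_cast h4
  have hpos : (0 : ℝ) < (k : ℝ) - m - 2 := by
    rw [← c1]
    have : 0 < k - (m + 2) := by omega
    exact_mod_cast this
  push_cast
  rw [div_pow, div_mul_eq_mul_div, le_div_iff₀ (by positivity)]
  have hD : (0 : ℝ) ≤ (k.descFactorial (m + 2) : ℝ) := by positivity
  calc (k.descFactorial (m + 2) : ℝ) * ((k - (m + 6)).descFactorial (t - 2) : ℝ)
        * ((k : ℝ) - m - 2) ^ 4
      = (k.descFactorial (m + 2) : ℝ) * (((k - (m + 6)).descFactorial (t - 2) : ℝ)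
        * ((k : ℝ) - m - 2) ^ 4) := by ring
    _ ≤ (k.descFactorial (m + 2) : ℝ) * (((k - (m + 2)).descFactorial (t - 2) : ℝ)
        * ((k : ℝ) - m - t) ^ 4) := mul_le_mul_of_nonneg_left h4' hD
    _ = _ := by ring

/-- Three near returns. -/
lemma Pr_triple (hC : S.C4) (t m₁ m₂ : ℕ) (ht : 2 ≤ t) (hm1 : 2 ≤ m₁) (hm2 : 2 ≤ m₂)
    (htm : t + (m₁ + m₂) ≤ k) (hk : 4 * (m₁ + m₂ + 2) ≤ k) :
    Pr (fun x l => S.A x (l.drop (m₁ + m₂)) ∧ S.A x (l.drop m₂) ∧ S.A x l) (t + (m₁ + m₂)) ≤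
      (((k : ℝ) - (m₁ + m₂ : ℕ) - t) / (k - (m₁ + m₂ : ℕ) - 2)) ^ 4
        + (8 * ((m₁ + m₂ : ℕ) : ℝ) + 39) / k := by
  have h1 : Pr (fun x l => S.A x (l.drop (m₁ + m₂)) ∧ S.A x (l.drop m₂) ∧ S.A x l)
        (t + (m₁ + m₂)) ≤
      Pr (fun x l => S.T3 (m₁ + m₂) m₂ x l ∨ (S.NG m₁ x (l.drop m₂) ∨
        (S.NG (m₁ + m₂) x l ∨ S.NG m₂ x l))) (t + (m₁ + m₂)) := by
    apply Pr_mono
    rintro x l hl ⟨⟨a₁, b₁, h1⟩, ⟨a₂, b₂, h2⟩, ⟨a₃, b₃, h3⟩⟩
    have hdd : (l.drop m₂).drop m₁ = l.drop (m₁ + m₂) := by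
      rw [List.drop_drop]; congr 1; omega
    by_cases n1 : S.NG m₁ x (l.drop m₂)
    · exact Or.inr (Or.inl n1)
    by_cases n2 : S.NG (m₁ + m₂) x l
    · exact Or.inr (Or.inr (Or.inl n2))
    by_cases n3 : S.NG m₂ x l
    · exact Or.inr (Or.inr (Or.inr n3))
    left
    have k12 : ¬ (R2 m₁ x (l.drop m₂) a₁ b₁ a₂ b₂) := fun h =>
      n1 (Or.inl ⟨a₁, b₁, a₂, b₂, by rw [hdd]; exact h1, h2, h⟩)
    have k12' : ¬ (R4 x (l.drop m₂) a₁ b₁ a₂ b₂) := fun h =>
      n1 (Or.inr ⟨a₁, b₁, a₂, b₂, by rw [hdd]; exact h1, h2, h⟩)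
    have k13 : ¬ (R2 (m₁ + m₂) x l a₁ b₁ a₃ b₃) := fun h =>
      n2 (Or.inl ⟨a₁, b₁, a₃, b₃, h1, h3, h⟩)
    have k13' : ¬ (R4 x l a₁ b₁ a₃ b₃) := fun h =>
      n2 (Or.inr ⟨a₁, b₁, a₃, b₃, h1, h3, h⟩)
    have k23 : ¬ (R2 m₂ x l a₂ b₂ a₃ b₃) := fun h =>
      n3 (Or.inl ⟨a₂, b₂, a₃, b₃, h2, h3, h⟩)
    have k23' : ¬ (R4 x l a₂ b₂ a₃ b₃) := fun h =>
      n3 (Or.inr ⟨a₂, b₂, a₃, b₃, h2, h3, h⟩)
    unfold R2 at k12 k13 k23
    unfold R4 at k12' k13' k23'
    push Not at k12 k12' k13 k13' k23 k23'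
    have hsplit : l.take (m₁ + m₂) = l.take m₂ ++ (l.drop m₂).take m₁ := by
      rw [Nat.add_comm m₁ m₂, List.take_add]
    refine ⟨a₁, b₁, a₂, b₂, a₃, b₃, h1, h2, h3, ?_, ?_⟩
    · have q1 := h1.1
      have q2 := h2.1
      have q3 := h3.1
      rw [card_insert_of_notMem, card_insert_of_notMem, card_insert_of_notMem,
        card_insert_of_notMem, card_pair q3]
      · simp only [mem_insert, mem_singleton, not_or]
        exact ⟨k23'.2.1.symm, k23'.2.2.2.symm⟩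
      · simp only [mem_insert, mem_singleton, not_or]
        exact ⟨q2, k23'.1.symm, k23'.2.2.1.symm⟩
      · simp only [mem_insert, mem_singleton, not_or]
        exact ⟨k12'.2.1.symm, k12'.2.2.2.symm, k13'.2.1.symm, k13'.2.2.2.symm⟩
      · simp only [mem_insert, mem_singleton, not_or]
        exact ⟨q1, k12'.1.symm, k12'.2.2.1.symm, k13'.1.symm, k13'.2.2.1.symm⟩
    · intro c hc
      simp only [mem_insert, mem_singleton] at hc
      rcases hc with rfl | rfl | rfl | rfl | rfl | rfl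
      · exact k13.1
      · exact k13.2
      · rw [hsplit, List.mem_append, not_or]
        exact ⟨k23.1, fun h => h2.2.1 ((List.take_sublist _ _).subset h)⟩
      · rw [hsplit, List.mem_append, not_or]
        exact ⟨k23.2, fun h => h2.2.2.1 ((List.take_sublist _ _).subset h)⟩
      · exact fun h => h3.2.1 ((List.take_sublist _ _).subset h)
      · exact fun h => h3.2.2.1 ((List.take_sublist _ _).subset h)
  have o1 := Pr_or (P := S.T3 (m₁ + m₂) m₂) (Q := fun x l => S.NG m₁ x (l.drop m₂) ∨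
        (S.NG (m₁ + m₂) x l ∨ S.NG m₂ x l)) (t := t + (m₁ + m₂))
  have o2 := Pr_or (P := fun x l => S.NG m₁ x (l.drop m₂)) (Q := fun x l =>
        (S.NG (m₁ + m₂) x l ∨ S.NG m₂ x l)) (t := t + (m₁ + m₂))
  have o3 := Pr_or (P := S.NG (m₁ + m₂)) (Q := S.NG m₂) (t := t + (m₁ + m₂))
  have g0 := Pr_T3 S hC t (m₁ + m₂) m₂ ht (by omega) htm (by omega)
  have g1 : Pr (fun x l => S.NG m₁ x (l.drop m₂)) (t + (m₁ + m₂)) ≤ (4 * (m₁ : ℝ) + 13) / k := by
    have e := Pr_drop (V := V) (S.NG m₁) (t + m₁) m₂ (by omega)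
    rw [show t + (m₁ + m₂) = t + m₁ + m₂ by ring, e]
    exact Pr_NG S hC t m₁ ht hm1 (by omega) (by omega)
  have g2 := Pr_NG S hC t (m₁ + m₂) ht (by omega) htm hk
  have g3 : Pr (S.NG m₂) (t + (m₁ + m₂)) ≤ (4 * (m₂ : ℝ) + 13) / k := by
    rw [show t + (m₁ + m₂) = t + m₁ + m₂ by ring]
    exact Pr_NG S hC (t + m₁) m₂ (by omega) hm2 (by omega) (by omega)
  have hsum : (8 * ((m₁ + m₂ : ℕ) : ℝ) + 39) / k = (4 * (m₁ : ℝ) + 13) / k +
      ((4 * ((m₁ + m₂ : ℕ) : ℝ) + 13) / k + (4 * (m₂ : ℝ) + 13) / k) := by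
    push_cast; ring
  rw [hsum]
  linarith

end RP97
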